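import Pool.Agent.Helper63K9.PL.St

/-! Leaf CHART: the zeros in three charts. -/

open Set MeasureTheory
open scoped ENNReal

namespace Pool.Agent.Helper63K9.PL

noncomputable section

open Pool.Agent.H709R2 (field fld)
open Pool.Agent.W960.HR

theorem chart : S_CHART := by
  intro S n hS c K h0 h1 h2
  set A0 := {z : ℝ × ℝ | |z.1| ≤ 1 ∧ |z.2| ≤ 1 ∧ Gs one e0 c z = 0} with hA0
  set A1 := {z : ℝ × ℝ | |z.1| ≤ 1 ∧ |z.2| ≤ 1 ∧ Gs one (e1 n) c z = 0} with hA1
  set A2 := {z : ℝ × ℝ | |z.1| ≤ 1 ∧ |z.2| ≤ 1 ∧ Gs one (e2 n) c z = 0} with hA2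
  have hsub : {z : ℝ × ℝ | fld c z = 0} ⊆ A0 ∪ ((fun w : ℝ × ℝ => (1 / w.1, w.2 / w.1)) '' A1 ∪
      (fun w : ℝ × ℝ => (w.2 / w.1, 1 / w.1)) '' A2) := by
    intro z hz
    rw [mem_ofPred_eq] at hz
    by_cases hb : |z.1| ≤ 1 ∧ |z.2| ≤ 1
    · left
      refine ⟨hb.1, hb.2, ?_⟩
      rw [← hz]
      unfold Gs fld
      refine Finset.sum_congr rfl fun m _ => ?_
      simp only [one, e0, one_mul]
    · right
      rcases le_or_gt |z.2| |z.1| with hle | hlt
      · left
        have hz1 : 1 < |z.1| := by
          by_contra hcon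
          push Not at hcon
          exact hb ⟨hcon, hle.trans hcon⟩
        have hz0 : z.1 ≠ 0 := by
          intro h; rw [h, abs_zero] at hz1; linarith
        refine ⟨(1 / z.1, z.2 / z.1), ⟨?_, ?_, ?_⟩, ?_⟩
        · simp only [abs_div, abs_one]
          rw [div_le_one (by linarith)]; exact hz1.le
        · simp only [abs_div]
          exact div_le_one_of_le₀ hle (abs_nonneg _)
        · have h3 := rel1 hS c z hz0
          rw [hz] at h3
          exact (smul_eq_zero.1 h3.symm).resolve_left (pow_ne_zero n hz0)
        · ext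
          · simp
          · simp only [one_div]
            field_simp
      · right
        have hz1 : 1 < |z.2| := by
          by_contra hcon
          push Not at hcon
          exact hb ⟨hlt.le.trans hcon, hcon⟩
        have hz0 : z.2 ≠ 0 := by
          intro h; rw [h, abs_zero] at hz1; linarith
        refine ⟨(1 / z.2, z.1 / z.2), ⟨?_, ?_, ?_⟩, ?_⟩
        · simp only [abs_div, abs_one]
          rw [div_le_one (by linarith)]; exact hz1.le
        · simp only [abs_div]
          exact div_le_one_of_le₀ hlt.le (abs_nonneg _)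
        · have h3 := rel2 hS c z.swap (by simpa using hz0)
          rw [Prod.swap_swap, hz] at h3
          simp only [Prod.fst_swap, Prod.snd_swap] at h3
          exact (smul_eq_zero.1 h3.symm).resolve_left (pow_ne_zero n hz0)
        · ext
          · simp only [one_div]
            field_simp
          · simp
  refine (encard_le_encard hsub).trans ((encard_union_le _ _).trans ?_)
  refine (add_le_add h0 ((encard_union_le _ _).trans (add_le_add
    ((encard_image_le _ _).trans h1) ((encard_image_le _ _).trans h2)))).trans (le_of_eq ?_)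
  ring

end

end Pool.Agent.Helper63K9.PL
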