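import Pool.Agent.Helper63K9.PL.St

/-! # Leaf COV -/

set_option autoImplicit false
namespace Pool.Agent.Helper63K9.PL

/-- one-sided family: intervals with centre `1 - (3/4) 2^(-j)` and radius `(3/4) 2^(-j)`, `j < J`,
and centre `1 - 2^(-J)/2`, radius `(3/2) 2^(-J)` -/
theorem cov_half (n : ℕ) (hn : 1 ≤ n) : ∃ I : Finset (ℝ × ℝ), (I.card : ℝ) ≤ 5 * (1 + Real.log n) ∧
    (∀ i ∈ I, 1 / (4 * (n : ℝ)) ≤ i.2 ∧ i.2 ≤ 2 ∧ |i.1| + i.2 ≤ 1 + 1 / (n : ℝ)) ∧
    ∀ x : ℝ, 0 ≤ x → x ≤ 1 → ∃ i ∈ I, |x - i.1| ≤ i.2 / 3 := by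
  classical
  have hn0 : (0 : ℝ) < n := by exact_mod_cast hn
  -- J with n ≤ 2^J < 2n
  obtain ⟨J, hJ1, hJ2⟩ : ∃ J : ℕ, (n : ℝ) ≤ 2 ^ J ∧ (2 : ℝ) ^ J ≤ 2 * n := by
    refine ⟨Nat.clog 2 n, ?_, ?_⟩
    · exact_mod_cast Nat.le_pow_clog (by norm_num) n
    · rcases Nat.lt_or_ge 1 n with h | h
      · have := Nat.pow_pred_clog_lt_self (b := 2) (by norm_num) h
        have h0 : 0 < Nat.clog 2 n := Nat.clog_pos (by norm_num) h
        obtain ⟨m, hm⟩ := Nat.exists_eq_succ_of_ne_zero h0.ne'
        rw [hm] at this ⊢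
        simp only [Nat.pred_succ, Nat.succ_eq_add_one, Nat.add_sub_cancel] at this
        rw [Nat.succ_eq_add_one, pow_succ]
        have h2 : ((2 : ℝ) ^ m) < n := by exact_mod_cast this
        linarith
      · have : n = 1 := by omega
        subst this
        norm_num
  have hJ0 : (0 : ℝ) < 2 ^ J := by positivity
  let f : ℕ → ℝ × ℝ := fun j => if j < J then (1 - (3 / 4) * (1 / 2) ^ j, (3 / 4) * (1 / 2) ^ j)
    else (1 - (1 / 2) ^ J / 2, (3 / 2) * (1 / 2) ^ J)
  refine ⟨(Finset.range (J + 1)).image f, ?_, ?_, ?_⟩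
  · have h1 : (((Finset.range (J + 1)).image f).card : ℝ) ≤ J + 1 := by
      have := Finset.card_image_le (s := Finset.range (J + 1)) (f := f)
      rw [Finset.card_range] at this
      exact_mod_cast this
    refine h1.trans ?_
    have h2 : (J : ℝ) * Real.log 2 ≤ Real.log 2 + Real.log n := by
      rw [← Real.log_pow, ← Real.log_mul (by norm_num) hn0.ne']
      exact Real.log_le_log hJ0 hJ2
    have h3 : 0.6931471803 < Real.log 2 := Real.log_two_gt_d9
    have h4 : 0 ≤ Real.log n := Real.log_nonneg (by exact_mod_cast hn)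
    nlinarith
  · intro i hi
    obtain ⟨j, hj, rfl⟩ := Finset.mem_image.1 hi
    have hj' : j < J + 1 := Finset.mem_range.1 hj
    have hinv : ((1 : ℝ) / 2) ^ J * 2 ^ J = 1 := by rw [← mul_pow]; norm_num
    have hn1 : 1 / (n : ℝ) * n = 1 := by field_simp
    have hlow : 1 / (2 * (n : ℝ)) ≤ (1 / 2) ^ J := by
      rw [one_div_pow]
      exact one_div_le_one_div_of_le hJ0 hJ2
    have hup : ((1 : ℝ) / 2) ^ J ≤ 1 / n := by
      rw [one_div_pow]
      exact one_div_le_one_div_of_le hn0 hJ1
    have hpJ : (0 : ℝ) < (1 / 2) ^ J := by positivity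
    have e4 : 1 / (4 * (n : ℝ)) = 1 / (2 * n) / 2 := by field_simp; norm_num
    simp only [f]
    split_ifs with h
    · have h1 : ((1 : ℝ) / 2) ^ j ≤ 1 := pow_le_one₀ (by norm_num) (by norm_num)
      have h2 : ((1 : ℝ) / 2) ^ J ≤ (1 / 2) ^ j :=
        pow_le_pow_of_le_one (by norm_num) (by norm_num) h.le
      have h3 : (0 : ℝ) < (1 / 2) ^ j := by positivity
      have h5 : 0 < 1 / (n : ℝ) := by positivity
      refine ⟨?_, ?_, ?_⟩
      · rw [e4]; dsimp only; nlinarith
      · dsimp only; linarith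
      · dsimp only; rw [abs_of_nonneg (by linarith)]; linarith
    · have h1 : ((1 : ℝ) / 2) ^ J ≤ 1 := pow_le_one₀ (by norm_num) (by norm_num)
      refine ⟨?_, ?_, ?_⟩
      · rw [e4]; dsimp only; nlinarith
      · dsimp only; linarith
      · dsimp only; rw [abs_of_nonneg (by linarith)]; linarith
  · intro x hx0 hx1
    by_cases hx : (1 / 2 : ℝ) ^ J ≤ 1 - x
    · -- choose the least j with 2^(-j-1) < 1 - x... 
      have hex : ∃ j : ℕ, (1 / 2 : ℝ) ^ (j + 1) ≤ 1 - x := by
        rcases Nat.eq_zero_or_pos J with h | h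
        · subst h
          simp only [pow_zero] at hx
          have : x = 0 := by linarith
          exact ⟨0, by rw [this]; norm_num⟩
        · exact ⟨J - 1, by rw [Nat.sub_add_cancel h]; exact hx⟩
      set j := Nat.find hex with hj
      have h1 := Nat.find_spec hex
      rw [← hj] at h1
      have h2 : 1 - x ≤ (1 / 2 : ℝ) ^ j := by
        rcases Nat.eq_zero_or_pos j with h | h
        · rw [h]; simp; linarith
        · have := Nat.find_min hex (m := j - 1) (by omega)
          rw [Nat.sub_add_cancel h] at this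
          exact (not_le.1 this).le
      by_cases hjJ : j < J
      · refine ⟨f j, Finset.mem_image_of_mem _ (Finset.mem_range.2 (by omega)), ?_⟩
        simp only [f, if_pos hjJ]
        rw [pow_succ] at h1
        rw [abs_le]
        constructor <;> linarith
      · -- then J = 0
        have : J = 0 := by
          by_contra h0
          have h3 := Nat.find_min' hex (m := J - 1)
            (by rw [Nat.sub_add_cancel (Nat.pos_of_ne_zero h0)]; exact hx)
          omega
        subst this
        refine ⟨f 0, Finset.mem_image_of_mem _ (by simp), ?_⟩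
        simp only [f, lt_irrefl, if_false, pow_zero]
        rw [abs_le]
        constructor <;> linarith
    · refine ⟨f J, Finset.mem_image_of_mem _ (by simp), ?_⟩
      simp only [f, lt_irrefl, if_false]
      have h1 := not_le.1 hx
      rw [abs_le]
      constructor <;> linarith

theorem cov : S_COV := by
  classical
  intro n hn
  obtain ⟨I, h1, h2, h3⟩ := cov_half n hn
  refine ⟨I ∪ I.image (fun i => (-i.1, i.2)), ?_, ?_, ?_⟩
  · have h4 : ((I ∪ I.image (fun i => (-i.1, i.2))).card : ℝ) ≤ I.card + I.card := by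
      have h5 := Finset.card_union_le I (I.image (fun i : ℝ × ℝ => (-i.1, i.2)))
      have h6 := Finset.card_image_le (s := I) (f := fun i : ℝ × ℝ => (-i.1, i.2))
      exact_mod_cast h5.trans (by omega)
    linarith
  · intro i hi
    rcases Finset.mem_union.1 hi with h | h
    · exact h2 i h
    · obtain ⟨k, hk, rfl⟩ := Finset.mem_image.1 h
      obtain ⟨g1, g2, g3⟩ := h2 k hk
      exact ⟨g1, g2, by simpa [abs_neg] using g3⟩
  · intro x hx
    rcases le_total 0 x with h | h
    · obtain ⟨i, hi, h4⟩ := h3 x h (by linarith [abs_le.1 hx])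
      exact ⟨i, Finset.mem_union_left _ hi, h4⟩
    · obtain ⟨i, hi, h4⟩ := h3 (-x) (by linarith) (by linarith [abs_le.1 hx])
      refine ⟨(-i.1, i.2), Finset.mem_union_right _ (Finset.mem_image_of_mem _ hi), ?_⟩
      rw [show x - -i.1 = -(-x - i.1) by ring, abs_neg]
      exact h4

end Pool.Agent.Helper63K9.PL
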