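import Pool.Agent.Helper63K9.PL.St

/-! # Leaf DEG -/

set_option autoImplicit false
namespace Pool.Agent.Helper63K9.PL

theorem deg : S_DEG := by
  intro n M t hn hM ht ht1
  have hn1 : (1 : ℝ) ≤ n := by exact_mod_cast hn
  have hn0 : (0 : ℝ) < n := by linarith
  have hM0 : 0 < M := by linarith
  set X : ℝ := n * M / t with hX
  have hX0 : 0 < X := by positivity
  have hX1 : 1 ≤ X := by
    rw [hX, le_div_iff₀ ht]
    nlinarith
  have hL : 0 ≤ Real.log X := Real.log_nonneg hX1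
  refine ⟨⌈4 * (32 + 6 * Real.log X)⌉₊, ?_, ?_⟩
  · have := Nat.ceil_lt_add_one (a := 4 * (32 + 6 * Real.log X)) (by positivity)
    linarith
  · set d := ⌈4 * (32 + 6 * Real.log X)⌉₊ with hd
    have h1 : 4 * (32 + 6 * Real.log X) ≤ d := Nat.le_ceil _
    have h2 : (3 / 4 : ℝ) ≤ Real.exp (-(1 / 4)) := by
      have := Real.add_one_le_exp (-(1 / 4) : ℝ)
      linarith
    have h3 : (3 / 4 : ℝ) ^ d ≤ Real.exp (-(32 + 6 * Real.log X)) := by
      calc (3 / 4 : ℝ) ^ d ≤ (Real.exp (-(1 / 4))) ^ d := pow_le_pow_left₀ (by norm_num) h2 d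
        _ = Real.exp (d * (-(1 / 4))) := by rw [Real.exp_nat_mul]
        _ ≤ _ := Real.exp_le_exp.2 (by linarith)
    have h4 : Real.exp (-(32 + 6 * Real.log X)) = Real.exp (-32) * (t / (n * M)) ^ 6 := by
      have e1 : -(32 + 6 * Real.log X) = -32 + -(6 * Real.log X) := by ring
      have e2 : Real.exp (6 * Real.log X) = X ^ 6 := by
        rw [show (6 : ℝ) * Real.log X = ((6 : ℕ) : ℝ) * Real.log X by norm_num, Real.exp_nat_mul,
          Real.exp_log hX0]
      rw [e1, Real.exp_add, Real.exp_neg (6 * Real.log X), e2, hX, ← inv_pow, inv_div]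
    have h5 : (23040000000000 : ℝ) * Real.exp (-32) ≤ 1 := by
      have h6 : (2.7 : ℝ) ≤ Real.exp 1 := by linarith [Real.exp_one_gt_d9]
      have h7 : (2.7 : ℝ) ^ 32 ≤ Real.exp 32 := by
        have := pow_le_pow_left₀ (by norm_num) h6 32
        rwa [← Real.exp_nat_mul, Nat.cast_ofNat, mul_one] at this
      have h8 : (23040000000000 : ℝ) ≤ 2.7 ^ 32 := by norm_num
      rw [Real.exp_neg, ← div_eq_mul_inv, div_le_one (Real.exp_pos _)]
      linarith
    rw [h4] at h3
    rw [le_div_iff₀ (by positivity)]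
    have h9 : (t / (4 * (n : ℝ))) ^ 2 = t ^ 2 / (16 * n ^ 2) := by
      field_simp
      norm_num
    rw [h9, le_div_iff₀ (by positivity)]
    have h10 : 10 ^ 4 * (3 * (4 * (n : ℝ) ^ 2 * M)) * (3 / 4) ^ d * (100 * (10 ^ 4 * (3 * (4 * n ^ 2 * M))))
        * (16 * n ^ 2) = 23040000000000 * (n ^ 6 * M ^ 2) * (3 / 4) ^ d := by ring
    rw [h10]
    calc 23040000000000 * ((n : ℝ) ^ 6 * M ^ 2) * (3 / 4) ^ d
        ≤ 23040000000000 * ((n : ℝ) ^ 6 * M ^ 2) * (Real.exp (-32) * (t / (n * M)) ^ 6) :=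
          mul_le_mul_of_nonneg_left h3 (by positivity)
      _ = (23040000000000 * Real.exp (-32)) * (t ^ 6 / M ^ 4) := by
          field_simp
      _ ≤ 1 * (t ^ 2 / 1) := by
          refine mul_le_mul h5 ?_ (by positivity) (by norm_num)
          rw [div_le_div_iff₀ (by positivity) (by norm_num)]
          have a1 : t ^ 6 ≤ t ^ 2 := pow_le_pow_of_le_one ht.le ht1 (by norm_num)
          have a2 : 1 ≤ M ^ 4 := one_le_pow₀ hM
          nlinarith [pow_pos ht 2]
      _ = t ^ 2 := by ring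

end Pool.Agent.Helper63K9.PL
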