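import Pool.Agent.Helper63K9.PL.Mean
import Pool.Agent.W960.HR.Near

/-! Every polynomial field is near to one with few closed orbits. -/

open Real Set MeasureTheory Topology Filter
open scoped ENNReal

namespace Pool.Agent.Helper63K9.PL

noncomputable section

open Pool.Agent
open Pool.Agent.H709R2 (fld rot rotc rot_fld NP NP_smul measurable_NP continuous_rotc g2)
open Pool.Agent.W960.HR (Full NZ Phi sn sn_nonneg gb GP dens_gb mom_gb measurable_Phi lintegral_gb
  mean_sn card_le)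
open Pool.Agent.TH275.KL (Full2)
open Pool.Agent.TH275.KLS (nb nb_nonneg sn_smul)

variable {S : Finset (ℕ × ℕ)} {n : ℕ}

lemma sn_add_le (a b : S → ℝ × ℝ) : sn (a + b) ≤ 2 * sn a + 2 * sn b := by
  unfold sn H709R2.sq
  rw [Finset.mul_sum, Finset.mul_sum, ← Finset.sum_add_distrib]
  refine Finset.sum_le_sum fun m _ => ?_
  simp only [Pi.add_apply, Prod.fst_add, Prod.snd_add]
  nlinarith [sq_nonneg ((a m).1 - (b m).1), sq_nonneg ((a m).2 - (b m).2)]

lemma sn_rot_sub_le (α : ℝ) (c : S → ℝ × ℝ) : sn (rotc α c - c) ≤ α ^ 2 * sn c := by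
  unfold sn H709R2.sq
  rw [Finset.mul_sum]
  refine Finset.sum_le_sum fun m _ => ?_
  simp only [Pi.sub_apply, Prod.fst_sub, Prod.snd_sub, rotc, rot]
  have h1 := Real.one_sub_sq_div_two_le_cos (x := α)
  have h2 := Real.sin_sq_add_cos_sq α
  have h3 : 0 ≤ (c m).1 ^ 2 + (c m).2 ^ 2 := by positivity
  have h4 : (2 - 2 * Real.cos α) * ((c m).1 ^ 2 + (c m).2 ^ 2) ≤
      α ^ 2 * ((c m).1 ^ 2 + (c m).2 ^ 2) := mul_le_mul_of_nonneg_right (by linarith) h3
  refine le_trans (le_of_eq ?_) h4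
  linear_combination ((c m).1 ^ 2 + (c m).2 ^ 2) * h2

lemma sn_rotc' (α : ℝ) (c : S → ℝ × ℝ) : sn (rotc α c) = sn c := by
  unfold sn H709R2.sq
  refine Finset.sum_congr rfl fun m _ => ?_
  simp only [rotc, rot]
  have h2 := Real.sin_sq_add_cos_sq α
  linear_combination ((c m).1 ^ 2 + (c m).2 ^ 2) * h2

/-- a small angle with few closed orbits -/
lemma exists_angle {c : S → ℝ × ℝ} {B ε : ℝ} (hB : 0 ≤ B) (hε : 0 < ε) (hε1 : ε ≤ 1)
    (h : Phi c ≤ ENNReal.ofReal B) :
    ∃ α ∈ Ioo 0 (ε / 2), NP (rotc α c) ≤ ENNReal.ofReal (4 * B / ε + 1) := by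
  by_contra hcon
  push Not at hcon
  have hπ := Real.pi_gt_three
  have h1 : ∫⁻ α in Ioo 0 (ε / 2), NP (rotc α c) ≤ ENNReal.ofReal B := by
    refine le_trans ?_ h
    unfold Phi
    exact lintegral_mono_set (Ioo_subset_Ioo_right (by linarith))
  have h2 : ENNReal.ofReal (4 * B / ε + 1) * ENNReal.ofReal (ε / 2) ≤
      ∫⁻ α in Ioo 0 (ε / 2), NP (rotc α c) := by
    calc ENNReal.ofReal (4 * B / ε + 1) * ENNReal.ofReal (ε / 2)
        = ∫⁻ _α in Ioo 0 (ε / 2), ENNReal.ofReal (4 * B / ε + 1) := by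
          rw [setLIntegral_const, Real.volume_Ioo, sub_zero]
      _ ≤ _ := setLIntegral_mono' measurableSet_Ioo fun α hα => (hcon α hα).le
  have h3 := h2.trans h1
  rw [← ENNReal.ofReal_mul (by positivity), ENNReal.ofReal_le_ofReal_iff hB] at h3
  have h4 : (4 * B / ε + 1) * (ε / 2) = 2 * B + ε / 2 := by field_simp; ring
  rw [h4] at h3
  linarith

/-- the constant -/
def KN : ℝ := 5 * 10 ^ 39

/-- **Every field is near to a field with few closed orbits.** -/
theorem nearP (hL : LV) (hF : Full2 n S) {c₀ : S → ℝ × ℝ} (hc : 0 < sn c₀) {ε : ℝ} (hε : 0 < ε)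
    (hε1 : ε ≤ 1) :
    ∃ c : S → ℝ × ℝ, sn (c - c₀) ≤ ε ^ 2 * sn c₀ ∧
      NP c ≤ ENNReal.ofReal (KN * (1 + Real.log (n / ε)) ^ 7 / ε) := by
  have hn := hF.one_le
  have hn1 : (1:ℝ) ≤ n := by exact_mod_cast hn
  have hn0 : (0:ℝ) < n := by linarith
  set s : ℝ := √(sn c₀) with hs
  have hs0 : 0 < s := Real.sqrt_pos.2 hc
  have hs2 : s ^ 2 = sn c₀ := Real.sq_sqrt hc.le
  set σ : ℝ := ε * s / (8 * n) with hσd
  have hσ : 0 < σ := by positivity
  set X : ℝ := 8 * n / ε with hX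
  have hX1 : 1 ≤ X := by
    rw [hX, le_div_iff₀ hε]; linarith
  set b : S → ℝ × ℝ := σ⁻¹ • c₀ with hb
  have hnb : nb b = X := by
    unfold nb
    rw [hb, sn_smul, inv_pow, inv_mul_eq_div, Real.sqrt_div' _ (by positivity),
      Real.sqrt_sq hσ.le, ← hs, hσd, hX]
    field_simp
  have hPhi := phi_gbP hL hF b hX1 (by rw [hnb]; linarith)
  set l : ℝ := Real.log (n / ε) with hl
  have hnε : 1 ≤ (n:ℝ) / ε := by rw [le_div_iff₀ hε]; linarith
  have hl0 : 0 ≤ l := Real.log_nonneg hnε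
  have hlog : 1 + Real.log (n * X) ≤ 31 / 10 * (1 + l) := by
    have h1 : (n:ℝ) * X ≤ 8 * (n / ε) ^ 2 := by
      rw [hX, div_pow, mul_div_assoc', mul_div_assoc', div_le_div_iff₀ hε (by positivity)]
      have : ε ^ 2 ≤ ε := by nlinarith
      calc (n:ℝ) * (8 * n) * ε ^ 2 ≤ n * (8 * n) * ε := by gcongr
        _ = 8 * n ^ 2 * ε := by ring
    have h2 := Real.log_le_log (by positivity) h1
    rw [Real.log_mul (x := 8) (by norm_num) (by positivity), Real.log_pow, ← hl] at h2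
    have h3 : Real.log 8 ≤ 21 / 10 := by
      have : (8:ℝ) = 2 ^ 3 := by norm_num
      rw [this, Real.log_pow]
      have := Real.log_two_lt_d9
      push_cast
      linarith
    push_cast at h2
    linarith
  have hy0 : 0 ≤ 1 + Real.log (n * X) := by
    have := Real.log_nonneg (one_le_mul_of_one_le_of_one_le hn1 hX1)
    linarith
  set B : ℝ := 4 * 10 ^ 38 * (1 + l) ^ 7 with hB
  have hB0 : 0 < B := by positivity
  have hPhi2 : ∫⁻ g : S → ℝ × ℝ, Phi (fun m => b m + g m) ∂GP S ≤ ENNReal.ofReal B := by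
    rw [← lintegral_gb b measurable_Phi]
    refine hPhi.trans (ENNReal.ofReal_le_ofReal ?_)
    have h1 := pow_le_pow_left₀ hy0 hlog 7
    rw [mul_pow] at h1
    have h2 : (31 / 10 : ℝ) ^ 7 ≤ 2752 := by norm_num
    have h3 : 0 ≤ (1 + l) ^ 7 := by positivity
    rw [hB]
    nlinarith
  have hNm : Measurable fun g : S → ℝ × ℝ => Phi (fun m => b m + g m) :=
    measurable_Phi.comp (by fun_prop)
  have hsnm : Measurable fun g : S → ℝ × ℝ => ENNReal.ofReal (sn g) := by
    have : Continuous fun g : S → ℝ × ℝ => sn g := by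
      unfold sn H709R2.sq
      fun_prop
    exact ENNReal.measurable_ofReal.comp this.measurable
  have hF1 : Measurable fun g : S → ℝ × ℝ => ENNReal.ofReal (sn g) * ENNReal.ofReal (1 / (16 * n ^ 2)) +
      Phi (fun m => b m + g m) * ENNReal.ofReal (1 / (3 * B)) :=
    (hsnm.mul_const _).add (hNm.mul_const _)
  obtain ⟨g, hg⟩ := exists_le_lintegral (μ := GP S) hF1.aemeasurable
  rw [lintegral_add_left (hsnm.mul_const _), lintegral_mul_const _ hsnm,
    lintegral_mul_const _ hNm] at hg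
  have h1 : (∫⁻ g : S → ℝ × ℝ, ENNReal.ofReal (sn g) ∂GP S) * ENNReal.ofReal (1 / (16 * n ^ 2)) ≤
      ENNReal.ofReal (1 / 2) := by
    refine (mul_le_mul_left mean_sn _).trans ?_
    rw [← ENNReal.ofReal_mul (by positivity)]
    apply ENNReal.ofReal_le_ofReal
    rw [mul_one_div, div_le_iff₀ (by positivity)]
    have := card_le hF.toFull
    linarith
  have h2 : (∫⁻ g : S → ℝ × ℝ, Phi (fun m => b m + g m) ∂GP S) * ENNReal.ofReal (1 / (3 * B)) ≤
      ENNReal.ofReal (1 / 3) := by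
    refine (mul_le_mul_left hPhi2 _).trans ?_
    rw [← ENNReal.ofReal_mul hB0.le]
    apply ENNReal.ofReal_le_ofReal
    rw [mul_one_div, div_le_iff₀ (by positivity)]
    linarith
  have h3 : ENNReal.ofReal (sn g) * ENNReal.ofReal (1 / (16 * n ^ 2)) +
      Phi (fun m => b m + g m) * ENNReal.ofReal (1 / (3 * B)) ≤ 1 := by
    refine hg.trans ((add_le_add h1 h2).trans ?_)
    rw [← ENNReal.ofReal_add (by norm_num) (by norm_num), ← ENNReal.ofReal_one]
    exact ENNReal.ofReal_le_ofReal (by norm_num)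
  have hsg : sn g ≤ 16 * n ^ 2 := by
    have h4 : ENNReal.ofReal (sn g) * ENNReal.ofReal (1 / (16 * n ^ 2)) ≤ 1 := le_self_add.trans h3
    rw [← ENNReal.ofReal_mul (sn_nonneg g), ← ENNReal.ofReal_one,
      ENNReal.ofReal_le_ofReal_iff (by norm_num), mul_one_div, div_le_one (by positivity)] at h4
    exact h4
  have hPg : Phi (fun m => b m + g m) ≤ ENNReal.ofReal (3 * B) := by
    have h4 : Phi (fun m => b m + g m) * ENNReal.ofReal (1 / (3 * B)) ≤ 1 :=
      le_add_self.trans h3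
    have h5 : ENNReal.ofReal (1 / (3 * B)) * ENNReal.ofReal (3 * B) = 1 := by
      rw [← ENNReal.ofReal_mul (by positivity), ← ENNReal.ofReal_one]
      congr 1
      field_simp
    calc Phi (fun m => b m + g m) = Phi (fun m => b m + g m) *
          ENNReal.ofReal (1 / (3 * B)) * ENNReal.ofReal (3 * B) := by
          rw [mul_assoc, h5, mul_one]
      _ ≤ 1 * ENNReal.ofReal (3 * B) := mul_le_mul_left h4 _
      _ = ENNReal.ofReal (3 * B) := one_mul _
  obtain ⟨α, hα, hNP⟩ := exists_angle (by positivity) hε hε1 hPg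
  refine ⟨σ • rotc α (fun m => b m + g m), ?_, ?_⟩
  · have e1 : σ • rotc α (fun m => b m + g m) - c₀ = (rotc α c₀ - c₀) + σ • rotc α g := by
      funext m
      have e2 : σ • b m = c₀ m := by
        rw [hb, Pi.smul_apply, smul_inv_smul₀ hσ.ne']
      have e3 : (c₀ m).1 = σ * (b m).1 := by rw [← e2]; rfl
      have e4 : (c₀ m).2 = σ * (b m).2 := by rw [← e2]; rfl
      simp only [Pi.add_apply, Pi.sub_apply, Pi.smul_apply, rotc, rot]
      ext
      · simp only [Prod.fst_add, Prod.fst_sub, Prod.smul_fst, smul_eq_mul, Prod.snd_add, e3, e4]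
        ring
      · simp only [Prod.fst_add, Prod.snd_sub, Prod.smul_snd, smul_eq_mul, Prod.snd_add, e3, e4]
        ring
    rw [e1]
    refine (sn_add_le _ _).trans ?_
    rw [sn_smul, sn_rotc']
    have h4 := sn_rot_sub_le α c₀
    have h5 : α ^ 2 * sn c₀ ≤ (ε / 2) ^ 2 * sn c₀ :=
      mul_le_mul_of_nonneg_right (pow_le_pow_left₀ hα.1.le hα.2.le 2) hc.le
    have h6 : σ ^ 2 * sn g ≤ ε ^ 2 / 4 * sn c₀ := by
      calc σ ^ 2 * sn g ≤ σ ^ 2 * (16 * n ^ 2) := by gcongr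
        _ = ε ^ 2 / 4 * s ^ 2 := by rw [hσd]; field_simp; ring
        _ = ε ^ 2 / 4 * sn c₀ := by rw [hs2]
    nlinarith
  · rw [NP_smul hσ]
    refine hNP.trans (ENNReal.ofReal_le_ofReal ?_)
    have h4 : 1 ≤ (1 + l) ^ 7 / ε := by
      rw [le_div_iff₀ hε, one_mul]
      have : (1:ℝ) ≤ (1 + l) ^ 7 := one_le_pow₀ (by linarith)
      linarith
    have h5 : 4 * (3 * B) / ε = 48 * 10 ^ 38 * ((1 + l) ^ 7 / ε) := by rw [hB]; ring
    have h6 : KN * (1 + l) ^ 7 / ε = 5 * 10 ^ 39 * ((1 + l) ^ 7 / ε) := by unfold KN; ring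
    rw [h5, h6]
    linarith

end

end Pool.Agent.Helper63K9.PL
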