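import Pool.Agent.Helper63K9.PL.St

/-! The leaf PERT: nondegenerate zeros survive small perturbations. -/

set_option autoImplicit false

open Set

namespace Pool.Agent.Helper63K9.PL

namespace PertL

/-- the perturbed zero -/
theorem exists_zero (f F : ℝ × ℝ → ℝ × ℝ) (hf : ContDiff ℝ 1 f) (hF : ContDiff ℝ 1 F)
    (t L η : ℝ) (ht : 0 < t) (ht1 : t ≤ 1) (hL : 1 ≤ L)
    (hlip : ∀ z w : ℝ × ℝ, ‖z‖ ≤ 1 / 2 → ‖w‖ ≤ 1 / 2 →
      ‖fderiv ℝ f z - fderiv ℝ f w‖ ≤ L * ‖z - w‖)
    (hη : η ≤ t ^ 2 / (100 * L))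
    (hc : ∀ z : ℝ × ℝ, ‖z‖ ≤ 1 / 2 → ‖F z - f z‖ ≤ η ∧ ‖fderiv ℝ F z - fderiv ℝ f z‖ ≤ η)
    (p : ℝ × ℝ) (hp : ‖p‖ ≤ 1 / 3) (hfp : f p = 0)
    (hpt : ∀ v, t * ‖v‖ ≤ ‖fderiv ℝ f p v‖) :
    ∃ q ∈ NdZ F, ‖q - p‖ ≤ t / (12 * L) := by
  set e := t / (12 * L) with he
  have he0 : 0 < e := by positivity
  have hLe : L * e = t / 12 := by
    rw [he]
    field_simp
  have he12 : e ≤ 1 / 12 := by
    rw [he, div_le_div_iff₀ (by positivity) (by norm_num)]
    nlinarith
  have hball : ∀ z ∈ Metric.closedBall p e, ‖z‖ ≤ 1 / 2 := by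
    intro z hz
    rw [Metric.mem_closedBall, dist_eq_norm] at hz
    have : ‖z‖ ≤ ‖z - p‖ + ‖p‖ := by
      have := norm_add_le (z - p) p
      rwa [sub_add_cancel] at this
    linarith
  have hη' : η ≤ t / 100 := by
    refine hη.trans ?_
    rw [div_le_div_iff₀ (by positivity) (by norm_num)]
    nlinarith
  have hder : ∀ z ∈ Metric.closedBall p e, ‖fderiv ℝ F z - fderiv ℝ f p‖ ≤ t / 2 := by
    intro z hz
    have h1 := (hc z (hball z hz)).2
    have h2 := hlip z p (hball z hz) (by linarith)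
    rw [Metric.mem_closedBall, dist_eq_norm] at hz
    have h3 : L * ‖z - p‖ ≤ t / 12 := by
      rw [← hLe]
      exact mul_le_mul_of_nonneg_left hz (by linarith)
    calc ‖fderiv ℝ F z - fderiv ℝ f p‖ =
        ‖(fderiv ℝ F z - fderiv ℝ f z) + (fderiv ℝ f z - fderiv ℝ f p)‖ := by
          congr 1
          abel
      _ ≤ ‖fderiv ℝ F z - fderiv ℝ f z‖ + ‖fderiv ℝ f z - fderiv ℝ f p‖ := norm_add_le _ _
      _ ≤ t / 2 := by linarith
  set A := fderiv ℝ f p with hA
  have hinj : Function.Injective (A : ℝ × ℝ →ₗ[ℝ] ℝ × ℝ) := by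
    rw [injective_iff_map_eq_zero]
    intro v hv
    have h1 := hpt v
    have h2 : A v = 0 := hv
    rw [h2, norm_zero] at h1
    have h3 : ‖v‖ ≤ 0 := by
      by_contra h
      push Not at h
      have := mul_pos ht h
      linarith
    exact norm_le_zero_iff.1 h3
  have hsurj : Function.Surjective (A : ℝ × ℝ →ₗ[ℝ] ℝ × ℝ) :=
    LinearMap.injective_iff_surjective.1 hinj
  choose g hg using hsurj
  let R : ContinuousLinearMap.NonlinearRightInverse A :=
    { toFun := g
      nnnorm := ⟨1 / t, by positivity⟩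
      bound' := by
        intro y
        have h1 := hpt (g y)
        have h2 : A (g y) = y := hg y
        rw [h2] at h1
        change ‖g y‖ ≤ 1 / t * ‖y‖
        rw [one_div, ← div_eq_inv_mul, le_div_iff₀ ht, mul_comm]
        exact h1
      right_inv' := fun y => hg y }
  have happ : ApproximatesLinearOn F A (Metric.closedBall p e) ⟨t / 2, by positivity⟩ := by
    intro x hx y hy
    exact (convex_closedBall p e).norm_image_sub_le_of_norm_fderiv_le'
      (fun z _ => (hF.differentiable (by norm_num)).differentiableAt) hder hy hx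
  have hs := happ.surjOn_closedBall_of_nonlinearRightInverse R he0.le (le_refl _)
  change SurjOn F (Metric.closedBall p e)
    (Metric.closedBall (F p) (((1 / t)⁻¹ - t / 2) * e)) at hs
  have hrad : ((1 / t)⁻¹ - t / 2) * e = t / 2 * e := by
    rw [one_div, inv_inv]
    ring
  rw [hrad] at hs
  have hFp : ‖F p‖ ≤ t / 2 * e := by
    have h1 := (hc p (by linarith)).1
    rw [hfp, sub_zero] at h1
    refine h1.trans (hη.trans ?_)
    rw [he]
    have : t / 2 * (t / (12 * L)) = t ^ 2 / (24 * L) := by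
      field_simp
      ring
    rw [this]
    apply div_le_div_of_nonneg_left (by positivity) (by positivity)
    nlinarith
  obtain ⟨q, hq, hFq⟩ := hs (show (0 : ℝ × ℝ) ∈ _ by
    rw [Metric.mem_closedBall, dist_eq_norm, zero_sub, norm_neg]
    exact hFp)
  refine ⟨q, ⟨hFq, ?_⟩, ?_⟩
  · intro v hv h0
    have h1 := hder q hq
    have h2 : ‖A v‖ ≤ t / 2 * ‖v‖ := by
      have h3 : A v = -((fderiv ℝ F q - A) v) := by
        rw [ContinuousLinearMap.sub_apply, h0]
        abel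
      rw [h3, norm_neg]
      exact (ContinuousLinearMap.le_opNorm _ _).trans
        (mul_le_mul_of_nonneg_right h1 (norm_nonneg _))
    have h3 := hpt v
    have h4 : 0 < ‖v‖ := norm_pos_iff.2 hv
    nlinarith
  · rw [Metric.mem_closedBall, dist_eq_norm] at hq
    exact hq

/-- the zeros are separated -/
theorem sep (f : ℝ × ℝ → ℝ × ℝ) (hf : ContDiff ℝ 1 f) (t L : ℝ) (ht : 0 < t) (ht1 : t ≤ 1)
    (hL : 1 ≤ L)
    (hlip : ∀ z w : ℝ × ℝ, ‖z‖ ≤ 1 / 2 → ‖w‖ ≤ 1 / 2 →
      ‖fderiv ℝ f z - fderiv ℝ f w‖ ≤ L * ‖z - w‖)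
    (p p' : ℝ × ℝ) (hp : ‖p‖ ≤ 1 / 3) (hfp : f p = 0) (hfp' : f p' = 0)
    (hpt : ∀ v, t * ‖v‖ ≤ ‖fderiv ℝ f p v‖) (h : ‖p' - p‖ ≤ 2 * (t / (12 * L))) : p' = p := by
  set e := t / (12 * L) with he
  have he0 : 0 < e := by positivity
  have hLe : L * e = t / 12 := by
    rw [he]
    field_simp
  have he12 : e ≤ 1 / 12 := by
    rw [he, div_le_div_iff₀ (by positivity) (by norm_num)]
    nlinarith
  have hball : ∀ z ∈ Metric.closedBall p (2 * e), ‖z‖ ≤ 1 / 2 := by
    intro z hz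
    rw [Metric.mem_closedBall, dist_eq_norm] at hz
    have : ‖z‖ ≤ ‖z - p‖ + ‖p‖ := by
      have := norm_add_le (z - p) p
      rwa [sub_add_cancel] at this
    linarith
  have hder : ∀ z ∈ Metric.closedBall p (2 * e), ‖fderiv ℝ f z - fderiv ℝ f p‖ ≤ t / 6 := by
    intro z hz
    have h2 := hlip z p (hball z hz) (by linarith)
    rw [Metric.mem_closedBall, dist_eq_norm] at hz
    have h3 : L * ‖z - p‖ ≤ L * (2 * e) := mul_le_mul_of_nonneg_left hz (by linarith)
    linarith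
  have h1 := (convex_closedBall p (2 * e)).norm_image_sub_le_of_norm_fderiv_le'
    (fun z _ => (hf.differentiable (by norm_num)).differentiableAt) hder
    (Metric.mem_closedBall_self (by positivity))
    (show p' ∈ Metric.closedBall p (2 * e) by rwa [Metric.mem_closedBall, dist_eq_norm])
  rw [hfp, hfp', sub_zero, zero_sub, norm_neg] at h1
  have h2 := hpt (p' - p)
  have h3 : ‖p' - p‖ ≤ 0 := by
    by_contra h
    push Not at h
    nlinarith
  exact sub_eq_zero.1 (norm_le_zero_iff.1 h3)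

end PertL

open PertL in
theorem pert : S_PERT := by
  intro f F hf hF t L η ht ht1 hL hlip hη hc A hA
  have hex : ∀ p : A, ∃ q ∈ NdZ F, ‖q - p‖ ≤ t / (12 * L) := fun p =>
    exists_zero f F hf hF t L η ht ht1 hL hlip hη hc p (hA p p.2).1 (hA p p.2).2.1
      (hA p p.2).2.2
  choose g hg1 hg2 using hex
  have hinj : Function.Injective (fun p : A => (⟨g p, hg1 p⟩ : NdZ F)) := by
    intro p p' hpp
    have h1 : g p = g p' := congrArg Subtype.val hpp
    apply Subtype.ext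
    apply sep f hf t L ht ht1 hL hlip p' p (hA p' p'.2).1 (hA p' p'.2).2.1 (hA p p.2).2.1
      (hA p' p'.2).2.2
    have h2 := hg2 p
    have h3 := hg2 p'
    rw [← h1] at h3
    calc ‖(p : ℝ × ℝ) - p'‖ = ‖(g p - p') - (g p - p)‖ := by
          congr 1
          abel
      _ ≤ ‖g p - p'‖ + ‖g p - p‖ := norm_sub_le _ _
      _ ≤ 2 * (t / (12 * L)) := by linarith
  exact Function.Embedding.encard_le ⟨_, hinj⟩

end Pool.Agent.Helper63K9.PL
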