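import Pool.Agent.Helper63K9.PL.St
import Pool.Agent.W960.HR.Chart3

/-! The leaf TAY1: the field in a cell as a double power sum with bounded coefficients. -/

set_option autoImplicit false

open Set

namespace Pool.Agent.Helper63K9.PL

open Pool.Agent.W960.HR

namespace Tay1L

/-- the coefficients of `(a + ρ x) ^ i` -/
noncomputable def T (a ρ : ℝ) (i k : ℕ) : ℝ := (i.choose k : ℝ) * a ^ (i - k) * ρ ^ k

theorem expand (a ρ x : ℝ) (i n : ℕ) (hi : i ≤ n) :
    (a + ρ * x) ^ i = ∑ k ∈ Finset.range (n + 1), T a ρ i k * x ^ k := by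
  rw [add_comm, add_pow]
  rw [← Finset.sum_subset (Finset.range_mono (Nat.succ_le_succ hi))]
  · apply Finset.sum_congr rfl
    intro k _
    rw [T, mul_pow]
    ring
  · intro k _ hk
    rw [Finset.mem_range, not_lt] at hk
    rw [T, Nat.choose_eq_zero_of_lt (by omega)]
    simp

theorem bd (a ρ : ℝ) (hρ : 0 ≤ ρ) (i k : ℕ) : |T a ρ i k| ≤ (|a| + ρ) ^ i := by
  by_cases hk : k ≤ i
  · rw [add_comm, add_pow]
    have h1 : |T a ρ i k| = ρ ^ k * |a| ^ (i - k) * (i.choose k : ℝ) := by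
      rw [T, abs_mul, abs_mul, Nat.abs_cast, abs_pow, abs_pow, abs_of_nonneg hρ]
      ring
    rw [h1]
    exact Finset.single_le_sum (f := fun k => ρ ^ k * |a| ^ (i - k) * (i.choose k : ℝ))
      (fun k _ => by positivity) (Finset.mem_range.2 (Nat.lt_succ_of_le hk))
  · rw [T, Nat.choose_eq_zero_of_lt (by omega)]
    simp only [Nat.cast_zero, zero_mul, abs_zero]
    positivity

end Tay1L

open Tay1L in
theorem tay1 : S_TAY1 := by
  intro S n e hn he N M hM hN c hc a b ρ ρ' hρ hρ' ha hb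
  refine ⟨fun k l => ∑ m, (T a ρ (e m).1 k * T b ρ' (e m).2 l) • c m, ?_, ?_⟩
  · intro k l
    have hterm : ∀ m : S, ‖(T a ρ (e m).1 k * T b ρ' (e m).2 l) • c m‖ ≤ 3 * M := by
      intro m
      rw [norm_smul, Real.norm_eq_abs, abs_mul]
      have h1 := bd a ρ hρ.le (e m).1 k
      have h2 := bd b ρ' hρ'.le (e m).2 l
      have h3 : (|a| + ρ) ^ (e m).1 ≤ (1 + 1 / (n : ℝ)) ^ (e m).1 := by gcongr
      have h4 : (|b| + ρ') ^ (e m).2 ≤ (1 + 1 / (n : ℝ)) ^ (e m).2 := by gcongr
      have h5 : (1 + 1 / (n : ℝ)) ^ (e m).1 * (1 + 1 / (n : ℝ)) ^ (e m).2 ≤ 3 := by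
        rw [← pow_add]
        refine le_trans (pow_le_pow_right₀ ?_ (he m)) (one_add_inv_pow_le hn)
        have : (0 : ℝ) ≤ 1 / n := by positivity
        linarith
      have h6 : |T a ρ (e m).1 k| * |T b ρ' (e m).2 l| ≤ 3 := by
        calc |T a ρ (e m).1 k| * |T b ρ' (e m).2 l|
            ≤ (1 + 1 / (n : ℝ)) ^ (e m).1 * (1 + 1 / (n : ℝ)) ^ (e m).2 :=
              mul_le_mul (h1.trans h3) (h2.trans h4) (abs_nonneg _) (by positivity)
          _ ≤ 3 := h5
      exact mul_le_mul h6 (hc m) (norm_nonneg _) (by norm_num)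
    calc ‖∑ m, (T a ρ (e m).1 k * T b ρ' (e m).2 l) • c m‖
        ≤ ∑ m, ‖(T a ρ (e m).1 k * T b ρ' (e m).2 l) • c m‖ := norm_sum_le _ _
      _ ≤ ∑ _m : S, 3 * M := Finset.sum_le_sum fun m _ => hterm m
      _ = S.card * (3 * M) := by
          rw [Finset.sum_const, Finset.card_univ, nsmul_eq_mul]
          simp
      _ ≤ N * (3 * M) := by gcongr
      _ = 3 * (N * M) := by ring
  · intro z
    simp only [Gs, one, one_mul, PS]
    have h1 : ∀ m : S, ((a + ρ * z.1) ^ (e m).1 * (b + ρ' * z.2) ^ (e m).2) • c m =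
        ∑ k ∈ Finset.range (n + 1), ∑ l ∈ Finset.range (n + 1),
          (z.1 ^ k * z.2 ^ l) • (T a ρ (e m).1 k * T b ρ' (e m).2 l) • c m := by
      intro m
      rw [expand a ρ z.1 (e m).1 n (by have := he m; omega),
        expand b ρ' z.2 (e m).2 n (by have := he m; omega), Finset.sum_mul_sum, Finset.sum_smul]
      apply Finset.sum_congr rfl
      intro k _
      rw [Finset.sum_smul]
      apply Finset.sum_congr rfl
      intro l _
      rw [smul_smul]
      congr 1
      ring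
    simp only [h1]
    rw [Finset.sum_comm]
    apply Finset.sum_congr rfl
    intro k _
    rw [Finset.sum_comm]
    apply Finset.sum_congr rfl
    intro l _
    rw [Finset.smul_sum]

end Pool.Agent.Helper63K9.PL
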