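import Pool.Agent.Helper63K9.PL.St

/-! The leaf TAY2: truncation of a double power sum. -/

set_option autoImplicit false

open Set

namespace Pool.Agent.Helper63K9.PL

open Pool.Agent.W960.HR
open Pool.Agent.H709R2 (field)

namespace Tay2L

/-- the derivative of a monomial -/
noncomputable def Dm (k l : ℕ) (z : ℝ × ℝ) : ℝ × ℝ →L[ℝ] ℝ :=
  (k * z.1 ^ (k - 1) * z.2 ^ l) • ContinuousLinearMap.fst ℝ ℝ ℝ +
    (l * z.1 ^ k * z.2 ^ (l - 1)) • ContinuousLinearMap.snd ℝ ℝ ℝ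

theorem hasF_mono (k l : ℕ) (z : ℝ × ℝ) :
    HasFDerivAt (fun z : ℝ × ℝ => z.1 ^ k * z.2 ^ l) (Dm k l z) z := by
  have h1 : HasFDerivAt (fun z : ℝ × ℝ => z.1 ^ k)
      ((k * z.1 ^ (k - 1)) • ContinuousLinearMap.fst ℝ ℝ ℝ) z := by
    have := (hasDerivAt_pow k z.1).comp_hasFDerivAt z (hasFDerivAt_fst (𝕜 := ℝ) (p := z))
    exact this
  have h2 : HasFDerivAt (fun z : ℝ × ℝ => z.2 ^ l)
      ((l * z.2 ^ (l - 1)) • ContinuousLinearMap.snd ℝ ℝ ℝ) z := by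
    have := (hasDerivAt_pow l z.2).comp_hasFDerivAt z (hasFDerivAt_snd (𝕜 := ℝ) (p := z))
    exact this
  have h3 := h1.mul h2
  have e : Dm k l z = z.1 ^ k • ((l * z.2 ^ (l - 1)) • ContinuousLinearMap.snd ℝ ℝ ℝ) +
      z.2 ^ l • ((k * z.1 ^ (k - 1)) • ContinuousLinearMap.fst ℝ ℝ ℝ) := by
    simp only [Dm, smul_smul]
    rw [add_comm]
    congr 2 <;> ring
  rw [e]
  exact h3

/-- the derivative of a double power sum -/
noncomputable def DPS (n : ℕ) (A : ℕ → ℕ → ℝ × ℝ) (z : ℝ × ℝ) : ℝ × ℝ →L[ℝ] ℝ × ℝ :=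
  ∑ k ∈ Finset.range (n + 1), ∑ l ∈ Finset.range (n + 1), (Dm k l z).smulRight (A k l)

theorem hasF_PS (n : ℕ) (A : ℕ → ℕ → ℝ × ℝ) (z : ℝ × ℝ) :
    HasFDerivAt (PS n A) (DPS n A z) z := by
  unfold DPS PS
  apply HasFDerivAt.fun_sum
  intro k _
  apply HasFDerivAt.fun_sum
  intro l _
  exact (hasF_mono k l z).smul_const (A k l)

/-! ### Numerical bounds -/

theorem bern (s : ℕ) : (s : ℝ) ≤ 4 * (5 / 4) ^ s := by
  have h := one_add_mul_le_pow (show (-2 : ℝ) ≤ 1 / 4 by norm_num) s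
  have h2 : (1 + 1 / 4 : ℝ) = 5 / 4 := by norm_num
  rw [h2] at h
  linarith

theorem geo (r : ℝ) (h0 : 0 ≤ r) (h1 : r < 1) (n : ℕ) :
    ∑ k ∈ Finset.range (n + 1), ∑ l ∈ Finset.range (n + 1), r ^ k * r ^ l ≤
      (1 / (1 - r)) * (1 / (1 - r)) := by
  rw [← Finset.sum_mul_sum]
  have h2 : ∑ k ∈ Finset.range (n + 1), r ^ k ≤ 1 / (1 - r) := by
    rw [le_div_iff₀ (by linarith), geom_sum_mul_neg]
    have := pow_nonneg h0 (n + 1)
    linarith
  have h3 : 0 ≤ ∑ k ∈ Finset.range (n + 1), r ^ k := Finset.sum_nonneg fun k _ => pow_nonneg h0 k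
  exact mul_le_mul h2 h2 h3 (h3.trans h2)

theorem half_pred (k : ℕ) : (k : ℝ) * (1 / 2) ^ (k - 1) = 2 * (k * (1 / 2) ^ k) := by
  cases k with
  | zero => simp
  | succ k =>
    rw [Nat.add_sub_cancel, pow_succ]
    ring

theorem abs1 {z : ℝ × ℝ} (hz : ‖z‖ ≤ 1 / 2) : |z.1| ≤ 1 / 2 := (abs_fst_le z).trans hz

theorem abs2 {z : ℝ × ℝ} (hz : ‖z‖ ≤ 1 / 2) : |z.2| ≤ 1 / 2 := (abs_snd_le z).trans hz

/-- a monomial is small -/
theorem mono_le {z : ℝ × ℝ} (hz : ‖z‖ ≤ 1 / 2) (k l : ℕ) :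
    |z.1 ^ k * z.2 ^ l| ≤ (1 / 2) ^ k * (1 / 2) ^ l := by
  rw [abs_mul, abs_pow, abs_pow]
  have h1 := abs1 hz
  have h2 := abs2 hz
  gcongr

/-- a monomial is Lipschitz -/
theorem mono_lip {z w : ℝ × ℝ} (hz : ‖z‖ ≤ 1 / 2) (hw : ‖w‖ ≤ 1 / 2) (k l : ℕ) :
    |z.1 ^ k * z.2 ^ l - w.1 ^ k * w.2 ^ l| ≤
      2 * ((k : ℝ) + l) * ((1 / 2) ^ k * (1 / 2) ^ l) * ‖z - w‖ := by
  have h1 := abs_pow_sub_le (abs1 hz) (abs1 hw) k
  have h2 := abs_pow_sub_le (abs2 hz) (abs2 hw) l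
  rw [half_pred] at h1 h2
  have h3 : |z.1 - w.1| ≤ ‖z - w‖ := abs_fst_le (z - w)
  have h4 : |z.2 - w.2| ≤ ‖z - w‖ := abs_snd_le (z - w)
  have h5 : |z.2 ^ l| ≤ (1 / 2) ^ l := by
    rw [abs_pow]
    have := abs2 hz
    gcongr
  have h6 : |w.1 ^ k| ≤ (1 / 2) ^ k := by
    rw [abs_pow]
    have := abs1 hw
    gcongr
  have e : z.1 ^ k * z.2 ^ l - w.1 ^ k * w.2 ^ l =
      (z.1 ^ k - w.1 ^ k) * z.2 ^ l + w.1 ^ k * (z.2 ^ l - w.2 ^ l) := by ring
  rw [e]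
  refine (abs_add_le _ _).trans ?_
  rw [abs_mul, abs_mul]
  have h7 : |z.1 ^ k - w.1 ^ k| ≤ 2 * (k * (1 / 2) ^ k) * ‖z - w‖ :=
    h1.trans (mul_le_mul_of_nonneg_left h3 (by positivity))
  have h8 : |z.2 ^ l - w.2 ^ l| ≤ 2 * (l * (1 / 2) ^ l) * ‖z - w‖ :=
    h2.trans (mul_le_mul_of_nonneg_left h4 (by positivity))
  calc |z.1 ^ k - w.1 ^ k| * |z.2 ^ l| + |w.1 ^ k| * |z.2 ^ l - w.2 ^ l|
      ≤ (2 * (k * (1 / 2) ^ k) * ‖z - w‖) * (1 / 2) ^ l +
        (1 / 2) ^ k * (2 * (l * (1 / 2) ^ l) * ‖z - w‖) := by gcongr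
    _ = _ := by ring

/-- the coefficients of the derivative of a monomial -/
theorem co_lip {z w : ℝ × ℝ} (hz : ‖z‖ ≤ 1 / 2) (hw : ‖w‖ ≤ 1 / 2) (k l : ℕ) :
    |k * z.1 ^ (k - 1) * z.2 ^ l - k * w.1 ^ (k - 1) * w.2 ^ l| ≤
      4 * k * ((k : ℝ) + l) * ((1 / 2) ^ k * (1 / 2) ^ l) * ‖z - w‖ := by
  cases k with
  | zero => simp
  | succ k =>
    rw [Nat.add_sub_cancel]
    have h1 := mono_lip hz hw k l
    have e : ((k + 1 : ℕ) : ℝ) * z.1 ^ k * z.2 ^ l - ((k + 1 : ℕ) : ℝ) * w.1 ^ k * w.2 ^ l =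
        ((k + 1 : ℕ) : ℝ) * (z.1 ^ k * z.2 ^ l - w.1 ^ k * w.2 ^ l) := by ring
    rw [e, abs_mul, Nat.abs_cast]
    calc ((k + 1 : ℕ) : ℝ) * |z.1 ^ k * z.2 ^ l - w.1 ^ k * w.2 ^ l|
        ≤ ((k + 1 : ℕ) : ℝ) * (2 * ((k : ℝ) + l) * ((1 / 2) ^ k * (1 / 2) ^ l) * ‖z - w‖) := by
          gcongr
      _ ≤ ((k + 1 : ℕ) : ℝ) * (2 * (((k + 1 : ℕ) : ℝ) + l) *
            ((1 / 2) ^ k * (1 / 2) ^ l) * ‖z - w‖) := by
          have : (k : ℝ) ≤ ((k + 1 : ℕ) : ℝ) := by push_cast; linarith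
          gcongr
      _ = _ := by
          rw [pow_succ (1 / 2 : ℝ) k]
          ring

theorem co_lip' {z w : ℝ × ℝ} (hz : ‖z‖ ≤ 1 / 2) (hw : ‖w‖ ≤ 1 / 2) (k l : ℕ) :
    |l * z.1 ^ k * z.2 ^ (l - 1) - l * w.1 ^ k * w.2 ^ (l - 1)| ≤
      4 * l * ((k : ℝ) + l) * ((1 / 2) ^ k * (1 / 2) ^ l) * ‖z - w‖ := by
  cases l with
  | zero => simp
  | succ l =>
    rw [Nat.add_sub_cancel]
    have h1 := mono_lip hz hw k l
    have e : ((l + 1 : ℕ) : ℝ) * z.1 ^ k * z.2 ^ l - ((l + 1 : ℕ) : ℝ) * w.1 ^ k * w.2 ^ l =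
        ((l + 1 : ℕ) : ℝ) * (z.1 ^ k * z.2 ^ l - w.1 ^ k * w.2 ^ l) := by ring
    rw [e, abs_mul, Nat.abs_cast]
    calc ((l + 1 : ℕ) : ℝ) * |z.1 ^ k * z.2 ^ l - w.1 ^ k * w.2 ^ l|
        ≤ ((l + 1 : ℕ) : ℝ) * (2 * ((k : ℝ) + l) * ((1 / 2) ^ k * (1 / 2) ^ l) * ‖z - w‖) := by
          gcongr
      _ ≤ ((l + 1 : ℕ) : ℝ) * (2 * ((k : ℝ) + ((l + 1 : ℕ) : ℝ)) *
            ((1 / 2) ^ k * (1 / 2) ^ l) * ‖z - w‖) := by
          have : (l : ℝ) ≤ ((l + 1 : ℕ) : ℝ) := by push_cast; linarith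
          gcongr
      _ = _ := by
          rw [pow_succ (1 / 2 : ℝ) l]
          ring

theorem norm_comb (x y : ℝ) : ‖x • ContinuousLinearMap.fst ℝ ℝ ℝ +
    y • ContinuousLinearMap.snd ℝ ℝ ℝ‖ ≤ |x| + |y| := by
  refine (norm_add_le _ _).trans ?_
  rw [norm_smul, norm_smul, Real.norm_eq_abs, Real.norm_eq_abs]
  have h1 := ContinuousLinearMap.norm_fst_le ℝ ℝ ℝ
  have h2 := ContinuousLinearMap.norm_snd_le ℝ ℝ ℝ
  have h3 := mul_le_mul_of_nonneg_left h1 (abs_nonneg x)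
  have h4 := mul_le_mul_of_nonneg_left h2 (abs_nonneg y)
  linarith

theorem Dm_lip {z w : ℝ × ℝ} (hz : ‖z‖ ≤ 1 / 2) (hw : ‖w‖ ≤ 1 / 2) (k l : ℕ) :
    ‖Dm k l z - Dm k l w‖ ≤
      64 * ((25 / 32) ^ k * (25 / 32) ^ l) * ‖z - w‖ := by
  have e : Dm k l z - Dm k l w =
      (k * z.1 ^ (k - 1) * z.2 ^ l - k * w.1 ^ (k - 1) * w.2 ^ l) •
        ContinuousLinearMap.fst ℝ ℝ ℝ +
      (l * z.1 ^ k * z.2 ^ (l - 1) - l * w.1 ^ k * w.2 ^ (l - 1)) •
        ContinuousLinearMap.snd ℝ ℝ ℝ := by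
    apply ContinuousLinearMap.ext
    intro v
    simp [Dm]
    ring
  rw [e]
  refine (norm_comb _ _).trans ((add_le_add (co_lip hz hw k l) (co_lip' hz hw k l)).trans ?_)
  have h1 : 4 * (k : ℝ) * ((k : ℝ) + l) * ((1 / 2) ^ k * (1 / 2) ^ l) * ‖z - w‖ +
      4 * (l : ℝ) * ((k : ℝ) + l) * ((1 / 2) ^ k * (1 / 2) ^ l) * ‖z - w‖ =
      4 * (((k + l : ℕ) : ℝ) * ((k + l : ℕ) : ℝ)) * ((1 / 2) ^ k * (1 / 2) ^ l) * ‖z - w‖ := by
    push_cast
    ring
  rw [h1]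
  have h2 := bern (k + l)
  have h3 : ((k + l : ℕ) : ℝ) * ((k + l : ℕ) : ℝ) ≤
      (4 * (5 / 4) ^ (k + l)) * (4 * (5 / 4) ^ (k + l)) :=
    mul_le_mul h2 h2 (by positivity) (by positivity)
  calc 4 * (((k + l : ℕ) : ℝ) * ((k + l : ℕ) : ℝ)) * ((1 / 2) ^ k * (1 / 2) ^ l) * ‖z - w‖
      ≤ 4 * ((4 * (5 / 4) ^ (k + l)) * (4 * (5 / 4) ^ (k + l))) *
        ((1 / 2) ^ k * (1 / 2) ^ l) * ‖z - w‖ := by gcongr
    _ = 64 * ((25 / 32) ^ k * (25 / 32) ^ l) * ‖z - w‖ := by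
        have e1 : ((25 : ℝ) / 32) ^ k = (5 / 4) ^ k * (5 / 4) ^ k * (1 / 2) ^ k := by
          rw [← mul_pow, ← mul_pow]
          norm_num
        have e2 : ((25 : ℝ) / 32) ^ l = (5 / 4) ^ l * (5 / 4) ^ l * (1 / 2) ^ l := by
          rw [← mul_pow, ← mul_pow]
          norm_num
        rw [e1, e2, pow_add]
        ring

theorem Dm_le {z : ℝ × ℝ} (hz : ‖z‖ ≤ 1 / 2) (k l : ℕ) :
    ‖Dm k l z‖ ≤ 8 * ((5 / 8) ^ k * (5 / 8) ^ l) := by
  refine (norm_comb _ _).trans ?_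
  have h1 : |(k : ℝ) * z.1 ^ (k - 1) * z.2 ^ l| ≤ 2 * (k * (1 / 2) ^ k) * (1 / 2) ^ l := by
    rw [mul_assoc, abs_mul, Nat.abs_cast]
    have := mul_le_mul_of_nonneg_left (mono_le hz (k - 1) l) (Nat.cast_nonneg (α := ℝ) k)
    rw [← mul_assoc (k : ℝ), half_pred] at this
    exact this
  have h2 : |(l : ℝ) * z.1 ^ k * z.2 ^ (l - 1)| ≤ 2 * (l * (1 / 2) ^ l) * (1 / 2) ^ k := by
    rw [mul_assoc, abs_mul, Nat.abs_cast]
    have := mul_le_mul_of_nonneg_left (mono_le hz k (l - 1)) (Nat.cast_nonneg (α := ℝ) l)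
    rw [mul_comm ((1 / 2 : ℝ) ^ k), ← mul_assoc (l : ℝ), half_pred] at this
    exact this
  have h3 := bern (k + l)
  calc |(k : ℝ) * z.1 ^ (k - 1) * z.2 ^ l| + |(l : ℝ) * z.1 ^ k * z.2 ^ (l - 1)|
      ≤ 2 * (k * (1 / 2) ^ k) * (1 / 2) ^ l + 2 * (l * (1 / 2) ^ l) * (1 / 2) ^ k :=
        add_le_add h1 h2
    _ = 2 * ((k + l : ℕ) : ℝ) * ((1 / 2) ^ k * (1 / 2) ^ l) := by push_cast; ring
    _ ≤ 2 * (4 * (5 / 4) ^ (k + l)) * ((1 / 2) ^ k * (1 / 2) ^ l) := by gcongr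
    _ = 8 * ((5 / 8) ^ k * (5 / 8) ^ l) := by
        have e1 : ((5 : ℝ) / 8) ^ k = (5 / 4) ^ k * (1 / 2) ^ k := by
          rw [← mul_pow]
          norm_num
        have e2 : ((5 : ℝ) / 8) ^ l = (5 / 4) ^ l * (1 / 2) ^ l := by
          rw [← mul_pow]
          norm_num
        rw [e1, e2, pow_add]
        ring

theorem norm_sr (φ : ℝ × ℝ →L[ℝ] ℝ) (a : ℝ × ℝ) : ‖φ.smulRight a‖ ≤ ‖φ‖ * ‖a‖ := by
  rw [ContinuousLinearMap.norm_smulRight_apply]

theorem PS_sub (n : ℕ) (A A' : ℕ → ℕ → ℝ × ℝ) (z : ℝ × ℝ) :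
    PS n A' z - PS n A z = PS n (fun k l => A' k l - A k l) z := by
  simp only [PS, ← Finset.sum_sub_distrib, ← smul_sub]

theorem DPS_sub (n : ℕ) (A A' : ℕ → ℕ → ℝ × ℝ) (z : ℝ × ℝ) :
    DPS n A' z - DPS n A z = DPS n (fun k l => A' k l - A k l) z := by
  simp only [DPS, ← Finset.sum_sub_distrib]
  apply Finset.sum_congr rfl
  intro k _
  apply Finset.sum_congr rfl
  intro l _
  ext <;> simp [mul_sub]

/-- the tail -/
theorem tail (n d : ℕ) (A : ℕ → ℕ → ℝ × ℝ) (B : ℝ) (hB : 0 ≤ B) (hA : ∀ k l, ‖A k l‖ ≤ B)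
    (hd : ∀ k l, k + l ≤ d → A k l = 0) (z : ℝ × ℝ) (hz : ‖z‖ ≤ 1 / 2) :
    ‖PS n A z‖ ≤ 10 ^ 4 * B * (3 / 4) ^ d ∧ ‖DPS n A z‖ ≤ 10 ^ 4 * B * (3 / 4) ^ d := by
  constructor
  · have hterm : ∀ k l, ‖(z.1 ^ k * z.2 ^ l) • A k l‖ ≤
        B * (3 / 4) ^ d * ((2 / 3) ^ k * (2 / 3) ^ l) := by
      intro k l
      by_cases h : k + l ≤ d
      · rw [hd k l h, smul_zero, norm_zero]
        positivity
      · push Not at h
        rw [norm_smul, Real.norm_eq_abs]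
        have h1 := mono_le hz k l
        have h2 : ((1 : ℝ) / 2) ^ k * (1 / 2) ^ l ≤ (3 / 4) ^ d * ((2 / 3) ^ k * (2 / 3) ^ l) := by
          have e1 : ((1 : ℝ) / 2) ^ k * (1 / 2) ^ l =
              (3 / 4) ^ (k + l) * ((2 / 3) ^ k * (2 / 3) ^ l) := by
            rw [pow_add]
            have e2 : ((1 : ℝ) / 2) ^ k = (3 / 4) ^ k * (2 / 3) ^ k := by
              rw [← mul_pow]
              norm_num
            have e3 : ((1 : ℝ) / 2) ^ l = (3 / 4) ^ l * (2 / 3) ^ l := by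
              rw [← mul_pow]
              norm_num
            rw [e2, e3]
            ring
          rw [e1]
          have h3 : ((3 : ℝ) / 4) ^ (k + l) ≤ (3 / 4) ^ d :=
            pow_le_pow_of_le_one (by norm_num) (by norm_num) h.le
          gcongr
        calc |z.1 ^ k * z.2 ^ l| * ‖A k l‖
            ≤ ((3 / 4) ^ d * ((2 / 3) ^ k * (2 / 3) ^ l)) * B :=
              mul_le_mul (h1.trans h2) (hA k l) (norm_nonneg _) (by positivity)
          _ = _ := by ring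
    calc ‖PS n A z‖ ≤ ∑ k ∈ Finset.range (n + 1), ∑ l ∈ Finset.range (n + 1),
          B * (3 / 4) ^ d * ((2 / 3) ^ k * (2 / 3) ^ l) := by
            unfold PS
            refine (norm_sum_le _ _).trans (Finset.sum_le_sum fun k _ => ?_)
            exact (norm_sum_le _ _).trans (Finset.sum_le_sum fun l _ => hterm k l)
      _ = B * (3 / 4) ^ d * ∑ k ∈ Finset.range (n + 1), ∑ l ∈ Finset.range (n + 1),
          ((2 / 3 : ℝ) ^ k * (2 / 3) ^ l) := by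
            simp only [Finset.mul_sum]
      _ ≤ B * (3 / 4) ^ d * ((1 / (1 - 2 / 3)) * (1 / (1 - 2 / 3))) :=
            mul_le_mul_of_nonneg_left (geo (2 / 3) (by norm_num) (by norm_num) n) (by positivity)
      _ ≤ 10 ^ 4 * B * (3 / 4) ^ d := by
            have : 0 ≤ B * (3 / 4 : ℝ) ^ d := by positivity
            norm_num
            nlinarith
  · have hterm : ∀ k l, ‖(Dm k l z).smulRight (A k l)‖ ≤
        8 * B * (3 / 4) ^ d * ((5 / 6) ^ k * (5 / 6) ^ l) := by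
      intro k l
      by_cases h : k + l ≤ d
      · rw [hd k l h]
        have e0 : (Dm k l z).smulRight (0 : ℝ × ℝ) = 0 := by
          ext <;> simp
        rw [e0, norm_zero]
        positivity
      · push Not at h
        refine (norm_sr _ _).trans ?_
        have h1 := Dm_le hz k l
        have h2 : ((5 : ℝ) / 8) ^ k * (5 / 8) ^ l ≤ (3 / 4) ^ d * ((5 / 6) ^ k * (5 / 6) ^ l) := by
          have e1 : ((5 : ℝ) / 8) ^ k * (5 / 8) ^ l =
              (3 / 4) ^ (k + l) * ((5 / 6) ^ k * (5 / 6) ^ l) := by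
            rw [pow_add]
            have e2 : ((5 : ℝ) / 8) ^ k = (3 / 4) ^ k * (5 / 6) ^ k := by
              rw [← mul_pow]
              norm_num
            have e3 : ((5 : ℝ) / 8) ^ l = (3 / 4) ^ l * (5 / 6) ^ l := by
              rw [← mul_pow]
              norm_num
            rw [e2, e3]
            ring
          rw [e1]
          have h3 : ((3 : ℝ) / 4) ^ (k + l) ≤ (3 / 4) ^ d :=
            pow_le_pow_of_le_one (by norm_num) (by norm_num) h.le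
          gcongr
        calc ‖Dm k l z‖ * ‖A k l‖
            ≤ (8 * ((3 / 4) ^ d * ((5 / 6) ^ k * (5 / 6) ^ l))) * B := by
              refine mul_le_mul (h1.trans ?_) (hA k l) (norm_nonneg _) (by positivity)
              exact mul_le_mul_of_nonneg_left h2 (by norm_num)
          _ = _ := by ring
    calc ‖DPS n A z‖ ≤ ∑ k ∈ Finset.range (n + 1), ∑ l ∈ Finset.range (n + 1),
          8 * B * (3 / 4) ^ d * ((5 / 6) ^ k * (5 / 6) ^ l) := by
            unfold DPS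
            refine (norm_sum_le _ _).trans (Finset.sum_le_sum fun k _ => ?_)
            exact (norm_sum_le _ _).trans (Finset.sum_le_sum fun l _ => hterm k l)
      _ = 8 * B * (3 / 4) ^ d * ∑ k ∈ Finset.range (n + 1), ∑ l ∈ Finset.range (n + 1),
          ((5 / 6 : ℝ) ^ k * (5 / 6) ^ l) := by
            simp only [Finset.mul_sum]
      _ ≤ 8 * B * (3 / 4) ^ d * ((1 / (1 - 5 / 6)) * (1 / (1 - 5 / 6))) :=
            mul_le_mul_of_nonneg_left (geo (5 / 6) (by norm_num) (by norm_num) n) (by positivity)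
      _ ≤ 10 ^ 4 * B * (3 / 4) ^ d := by
            have : 0 ≤ B * (3 / 4 : ℝ) ^ d := by positivity
            norm_num
            nlinarith

/-- the truncated polynomial -/
noncomputable def tr (n d : ℕ) (a : ℕ → ℕ → ℝ) : MvPolynomial (Fin 2) ℝ :=
  ∑ k ∈ Finset.range (n + 1), ∑ l ∈ Finset.range (n + 1),
    if k + l ≤ d then MvPolynomial.C (a k l) * (MvPolynomial.X 0 ^ k * MvPolynomial.X 1 ^ l) else 0

theorem tr_deg (n d : ℕ) (a : ℕ → ℕ → ℝ) : (tr n d a).totalDegree ≤ d := by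
  unfold tr
  refine MvPolynomial.totalDegree_finsetSum_le fun k _ => ?_
  refine MvPolynomial.totalDegree_finsetSum_le fun l _ => ?_
  split_ifs with h
  · refine (MvPolynomial.totalDegree_mul _ _).trans ?_
    rw [MvPolynomial.totalDegree_C, zero_add]
    refine (MvPolynomial.totalDegree_mul _ _).trans ?_
    rw [MvPolynomial.totalDegree_X_pow, MvPolynomial.totalDegree_X_pow]
    exact h
  · simp

theorem tr_eval (n d : ℕ) (a : ℕ → ℕ → ℝ) (z : ℝ × ℝ) :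
    MvPolynomial.eval ![z.1, z.2] (tr n d a) =
      ∑ k ∈ Finset.range (n + 1), ∑ l ∈ Finset.range (n + 1),
        (z.1 ^ k * z.2 ^ l) * (if k + l ≤ d then a k l else 0) := by
  unfold tr
  rw [map_sum]
  apply Finset.sum_congr rfl
  intro k _
  rw [map_sum]
  apply Finset.sum_congr rfl
  intro l _
  split_ifs with h
  · simp
    ring
  · simp

end Tay2L

open Tay2L in
theorem tay2 : S_TAY2 := by
  intro n A B hB hA
  have hfd : ∀ (A : ℕ → ℕ → ℝ × ℝ) (z : ℝ × ℝ), fderiv ℝ (PS n A) z = DPS n A z :=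
    fun A z => (hasF_PS n A z).fderiv
  constructor
  · intro z w hz hw
    rw [hfd, hfd]
    have e : DPS n A z - DPS n A w = ∑ k ∈ Finset.range (n + 1), ∑ l ∈ Finset.range (n + 1),
        (Dm k l z - Dm k l w).smulRight (A k l) := by
      simp only [DPS, ← Finset.sum_sub_distrib]
      apply Finset.sum_congr rfl
      intro k _
      apply Finset.sum_congr rfl
      intro l _
      ext <;> simp [sub_mul]
    rw [e]
    have hterm : ∀ k l, ‖(Dm k l z - Dm k l w).smulRight (A k l)‖ ≤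
        64 * B * ‖z - w‖ * ((25 / 32) ^ k * (25 / 32) ^ l) := by
      intro k l
      refine (norm_sr _ _).trans ?_
      calc ‖Dm k l z - Dm k l w‖ * ‖A k l‖
          ≤ (64 * ((25 / 32) ^ k * (25 / 32) ^ l) * ‖z - w‖) * B :=
            mul_le_mul (Dm_lip hz hw k l) (hA k l) (norm_nonneg _) (by positivity)
        _ = _ := by ring
    calc ‖∑ k ∈ Finset.range (n + 1), ∑ l ∈ Finset.range (n + 1),
          (Dm k l z - Dm k l w).smulRight (A k l)‖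
        ≤ ∑ k ∈ Finset.range (n + 1), ∑ l ∈ Finset.range (n + 1),
          64 * B * ‖z - w‖ * ((25 / 32) ^ k * (25 / 32) ^ l) := by
            refine (norm_sum_le _ _).trans (Finset.sum_le_sum fun k _ => ?_)
            exact (norm_sum_le _ _).trans (Finset.sum_le_sum fun l _ => hterm k l)
      _ = 64 * B * ‖z - w‖ * ∑ k ∈ Finset.range (n + 1), ∑ l ∈ Finset.range (n + 1),
          ((25 / 32 : ℝ) ^ k * (25 / 32) ^ l) := by
            simp only [Finset.mul_sum]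
      _ ≤ 64 * B * ‖z - w‖ * ((1 / (1 - 25 / 32)) * (1 / (1 - 25 / 32))) :=
            mul_le_mul_of_nonneg_left (geo (25 / 32) (by norm_num) (by norm_num) n)
              (by positivity)
      _ ≤ 10 ^ 4 * B * ‖z - w‖ := by
            have : 0 ≤ B * ‖z - w‖ := by positivity
            norm_num
            nlinarith
  · intro d
    set A' : ℕ → ℕ → ℝ × ℝ := fun k l => if k + l ≤ d then A k l else 0 with hA'
    refine ⟨tr n d (fun k l => (A k l).1), tr n d (fun k l => (A k l).2), tr_deg _ _ _,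
      tr_deg _ _ _, ?_⟩
    have hfield : field (tr n d (fun k l => (A k l).1)) (tr n d (fun k l => (A k l).2)) =
        PS n A' := by
      funext z
      simp only [field, tr_eval, PS]
      rw [Prod.ext_iff]
      constructor
      · dsimp only
        rw [Prod.fst_sum]
        apply Finset.sum_congr rfl
        intro k _
        rw [Prod.fst_sum]
        apply Finset.sum_congr rfl
        intro l _
        simp only [hA', Prod.smul_fst, smul_eq_mul]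
        split_ifs <;> simp
      · dsimp only
        rw [Prod.snd_sum]
        apply Finset.sum_congr rfl
        intro k _
        rw [Prod.snd_sum]
        apply Finset.sum_congr rfl
        intro l _
        simp only [hA', Prod.smul_snd, smul_eq_mul]
        split_ifs <;> simp
    rw [hfield]
    intro z hz
    rw [hfd, hfd, PS_sub, DPS_sub]
    apply tail n d _ B hB
    · intro k l
      simp only [hA']
      split_ifs with h
      · rw [sub_self, norm_zero]; exact hB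
      · rw [zero_sub, norm_neg]; exact hA k l
    · intro k l h
      simp only [hA', if_pos h, sub_self]
    · exact hz

end Pool.Agent.Helper63K9.PL
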