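import Pool.Agent.Helper63K9.PL.Bez
import Pool.Agent.Helper63K9.PL.Ch
import Pool.Agent.Helper63K9.PL.Pert
import Pool.Agent.Helper63K9.PL.Tay1
import Pool.Agent.Helper63K9.PL.Tay2
import Pool.Agent.Helper63K9.PL.Cov
import Pool.Agent.Helper63K9.PL.Deg
import Pool.Agent.Helper63K9.PL.Near

/-! All leaves. -/

open Set MeasureTheory
open scoped ENNReal

namespace Pool.Agent.Helper63K9.PL

theorem lv : LV := ⟨bez, pert, tay1, tay2, cov, chart, deg⟩

end Pool.Agent.Helper63K9.PL
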