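import Pool.Agent.Helper63K9.PL.St

/-! Leaf BEZ: the nondegenerate zeros of a polynomial field. -/

open Set MeasureTheory
open scoped ENNReal

namespace Pool.Agent.Helper63K9.PL

noncomputable section

open Pool.Agent.H709R2 (field fld)
open Pool.Agent.H709U
open Pool.Agent.W960.HR

theorem bez : S_BEZ := by
  intro d P Q hP hQ
  by_cases hne : P ≠ 0 ∨ Q ≠ 0
  · obtain ⟨h, P₁, Q₁, hPh, hQh, hrel, hP₁, hQ₁⟩ := b1 d P Q hP hQ hne
    obtain ⟨Z, hZc, hZ⟩ := b3 d P₁ Q₁ hP₁ hQ₁ hrel
    have hsub : NdZ (field P Q) ⊆ (Z : Set (ℝ × ℝ)) := by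
      rintro z ⟨hz, hnd⟩
      rw [Finset.mem_coe, ← hZ]
      set H : ℝ × ℝ → ℝ := fun p => MvPolynomial.eval ![p.1, p.2] h with hH
      have hX : field P Q = fun p => H p • field P₁ Q₁ p := by
        funext p
        rw [hPh, hQh]
        unfold field
        simp only [map_mul, hH]
        rfl
      have hHz : H z ≠ 0 := by
        intro h0
        have d1 : HasFDerivAt H (fderiv ℝ H z) z :=
          (((H709R2.contDiff_evalPoly h (m := 1)).differentiable (by norm_num)) z).hasFDerivAt
        have d2 : HasFDerivAt (field P₁ Q₁) (fderiv ℝ (field P₁ Q₁) z) z :=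
          (((H709R2.contDiff_field P₁ Q₁ (m := 1)).differentiable (by norm_num)) z).hasFDerivAt
        have d3 := d1.smul d2
        have hv : ∀ v, fderiv ℝ H z v = 0 → fderiv ℝ (field P Q) z v = 0 := by
          intro v hv
          rw [hX]
          have : fderiv ℝ (fun p => H p • field P₁ Q₁ p) z = _ := HasFDerivAt.fderiv d3
          rw [this]
          simp [h0, hv]
        set a := fderiv ℝ H z (1, 0) with ha
        set b := fderiv ℝ H z (0, 1) with hb
        by_cases hab : a = 0 ∧ b = 0
        · exact hnd (1, 0) (by simp) (hv _ hab.1)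
        · refine hnd (b, -a) ?_ (hv _ ?_)
          · intro h1
            apply hab
            simp only [Prod.mk_eq_zero, neg_eq_zero] at h1
            exact ⟨h1.2, h1.1⟩
          · have e : ((b, -a) : ℝ × ℝ) = b • ((1, 0) : ℝ × ℝ) + (-a) • ((0, 1) : ℝ × ℝ) := by
              ext <;> simp
            rw [e, map_add, map_smul, map_smul, ← ha, ← hb]
            simp only [smul_eq_mul]
            ring
      rw [hX] at hz
      simp only at hz
      rcases smul_eq_zero.1 hz with h1 | h1
      · exact absurd h1 hHz
      · exact h1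
    refine (encard_le_encard hsub).trans ?_
    rw [Set.encard_coe_eq_coe_finsetCard]
    exact_mod_cast hZc
  · push Not at hne
    obtain ⟨rfl, rfl⟩ := hne
    have h0 : NdZ (field 0 0) = ∅ := by
      rw [Set.eq_empty_iff_forall_notMem]
      rintro z ⟨-, hnd⟩
      apply hnd (1, 0) (by simp)
      have : field (0 : MvPolynomial (Fin 2) ℝ) 0 = fun _ => (0 : ℝ × ℝ) := by
        funext p
        unfold field
        simp
      rw [this]
      simp
    rw [h0]
    simp

end

end Pool.Agent.Helper63K9.PL
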