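import Pool.Agent.Helper63K9.PL.Zc
import Pool.Agent.TH275.KL.Smooth

/-! The mean number of closed orbits is polylogarithmic for arbitrary independent coefficients. -/

open Real Set MeasureTheory Topology Filter
open scoped ENNReal

namespace Pool.Agent.Helper63K9.PL

noncomputable section

open Pool.Agent
open Pool.Agent.H709R2 (fld rot rotc rot_fld NP measurable_NP continuous_rotc g2)
open Pool.Agent.W960.HR (Full NZ Good Phi Mk tk lk bk mk_ge tk_pos lk_ge log_level Mom Dens RotInv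
  measurePreserving_rotc' sn sn_nonneg gb GP dens_gb mom_gb to_rotations measurable_Phi)
open Pool.Agent.TH275.KL (Full2 Gd ck ck_ge phi_le_ck prob_Gd)
open Pool.Agent.TH275.KLS (nb nb_nonneg sh nb_sh weighted sn_smul)

variable {S : Finset (ℕ × ℕ)} {n : ℕ}

/-- all leaves -/
structure LV : Prop where
  bez : S_BEZ
  pert : S_PERT
  tay1 : S_TAY1
  tay2 : S_TAY2
  cov : S_COV
  chart : S_CHART
  deg : S_DEG

/-- the bound at level `k` -/
def pk (n : ℕ) (D W : ℝ) (k : ℕ) : ℝ := 3 * 10 ^ 23 * (1 + Real.log (n * D * W) + k) ^ 7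

/-- the integral over the rotations, pointwise -/
lemma phi_le_pk (hL : LV) (hF : Full2 n S) {D W : ℝ} (hD : 1 ≤ D) (hW : 1 ≤ W) (k : ℕ)
    {c : S → ℝ × ℝ} (hg : Gd n D W k c) : Phi c ≤ ENNReal.ofReal (pk n D W k) := by
  have hn := hF.one_le
  have hn1 : (1:ℝ) ≤ n := by exact_mod_cast hn
  have h1 := (phi_le_ck hF hD hW k hg).1
  have h2 := nz_le hL.bez hL.pert hL.tay1 hL.tay2 hL.cov hL.chart hL.deg hF.toFull
    (mk_ge hn hW k) (tk_pos hn hD hW k).1 (tk_pos hn hD hW k).2 hg.1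
  have h3 := log_level hn hD hW k
  set l := Real.log (n * D * W) with hl
  have hl0 : 0 ≤ l := Real.log_nonneg
    (one_le_mul_of_one_le_of_one_le (one_le_mul_of_one_le_of_one_le hn1 hD) hW)
  have hk0 : (0:ℝ) ≤ k := Nat.cast_nonneg k
  set L : ℝ := 1 + l + k with hLd
  have hL1 : 1 ≤ L := by linarith
  set y : ℝ := 1 + Real.log (n * Mk n W k / tk n D W k) with hy
  have h4 : y ≤ 32 * L := by
    have : 700000 * y ≤ 700000 * (32 * L) := by
      refine h3.trans ?_
      unfold bk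
      rw [← hl]
      linarith
    linarith
  have hy0 : 0 ≤ y := by
    have h5 : (1:ℝ) ≤ n * Mk n W k / tk n D W k := by
      rw [le_div_iff₀ (tk_pos hn hD hW k).1, one_mul]
      have := one_le_mul_of_one_le_of_one_le hn1 (mk_ge hn hW k)
      linarith [(tk_pos hn hD hW k).2]
    have := Real.log_nonneg h5
    linarith
  have h5 : 1 + NZ c ≤ ENNReal.ofReal (13 * 10 ^ 12 * L ^ 4) := by
    calc 1 + NZ c ≤ ENNReal.ofReal 1 + ENNReal.ofReal (12 * 10 ^ 6 * y ^ 4) := by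
          rw [ENNReal.ofReal_one]; exact add_le_add le_rfl h2
      _ = ENNReal.ofReal (1 + 12 * 10 ^ 6 * y ^ 4) := by
          rw [ENNReal.ofReal_add (by norm_num) (by positivity)]
      _ ≤ _ := by
          apply ENNReal.ofReal_le_ofReal
          have h6 : y ^ 4 ≤ (32 * L) ^ 4 := pow_le_pow_left₀ hy0 h4 4
          have h7 : 1 ≤ L ^ 4 := one_le_pow₀ hL1
          have h8 : (32 * L) ^ 4 = 1048576 * L ^ 4 := by ring
          rw [h8] at h6
          linarith
  have hc := ck_ge hn hD hW k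
  refine h1.trans ((mul_le_mul_right h5 _).trans ?_)
  rw [← ENNReal.ofReal_mul (by linarith)]
  apply ENNReal.ofReal_le_ofReal
  unfold ck pk
  rw [← hl, ← hLd]
  have : 0 ≤ L ^ 7 := by positivity
  calc 22 * 10 ^ 9 * L ^ 3 * (13 * 10 ^ 12 * L ^ 4) = 286 * 10 ^ 21 * L ^ 7 := by ring
    _ ≤ 3 * 10 ^ 23 * L ^ 7 := by nlinarith

/-- layers -/
lemma phi_le_tsum (hL : LV) (hF : Full2 n S) {D W : ℝ} (hD : 1 ≤ D) (hW : 1 ≤ W) (c : S → ℝ × ℝ) :
    Phi c ≤ ENNReal.ofReal (pk n D W 0) + ∑' k : ℕ,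
      {c : S → ℝ × ℝ | ¬ Gd n D W k c}.indicator
        (fun _ => ENNReal.ofReal (pk n D W (k + 1))) c := by
  have hn1 : (1:ℝ) ≤ n := by exact_mod_cast hF.one_le
  by_cases h : ∃ k, Gd n D W k c
  · classical
    have hs := Nat.find_spec h
    have hm := fun j => Nat.find_min h (m := j)
    set k := Nat.find h with hk
    rcases Nat.eq_zero_or_pos k with h0 | h0
    · rw [h0] at hs
      exact (phi_le_pk hL hF hD hW 0 hs).trans le_self_add
    · obtain ⟨j, hj⟩ := Nat.exists_eq_add_of_le' h0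
      have h1 : ¬ Gd n D W j c := hm j (by omega)
      have h2 : ENNReal.ofReal (pk n D W (j + 1)) ≤ ∑' k : ℕ,
          {c : S → ℝ × ℝ | ¬ Gd n D W k c}.indicator
            (fun _ => ENNReal.ofReal (pk n D W (k + 1))) c := by
        refine le_trans ?_ (ENNReal.le_tsum j)
        rw [indicator_of_mem (show c ∈ {c : S → ℝ × ℝ | ¬ Gd n D W j c} from h1)]
      rw [hj] at hs
      exact (phi_le_pk hL hF hD hW (j + 1) hs).trans (h2.trans le_add_self)
  · push Not at h
    have h1 : ∑' k : ℕ, {c : S → ℝ × ℝ | ¬ Gd n D W k c}.indicator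
        (fun _ => ENNReal.ofReal (pk n D W (k + 1))) c = ⊤ := by
      rw [eq_top_iff]
      have h2 : ∀ k : ℕ, (1:ℝ≥0∞) ≤ {c : S → ℝ × ℝ | ¬ Gd n D W k c}.indicator
          (fun _ => ENNReal.ofReal (pk n D W (k + 1))) c := by
        intro k
        rw [indicator_of_mem (show c ∈ {c : S → ℝ × ℝ | ¬ Gd n D W k c} from h k)]
        rw [← ENNReal.ofReal_one]
        apply ENNReal.ofReal_le_ofReal
        have hl0 : 0 ≤ Real.log (n * D * W) := Real.log_nonneg
          (one_le_mul_of_one_le_of_one_le (one_le_mul_of_one_le_of_one_le hn1 hD) hW)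
        have hk0 : (0:ℝ) ≤ ((k + 1 : ℕ) : ℝ) := Nat.cast_nonneg _
        unfold pk
        have : 1 ≤ (1 + Real.log (n * D * W) + ((k + 1 : ℕ) : ℝ)) ^ 7 := one_le_pow₀ (by linarith)
        linarith
      calc (⊤ : ℝ≥0∞) = ∑' _ : ℕ, (1:ℝ≥0∞) := (ENNReal.tsum_const_eq_top_of_ne_zero one_ne_zero).symm
        _ ≤ _ := ENNReal.tsum_le_tsum h2
    rw [h1]
    simp

lemma pow7_le (k : ℕ) : ((k:ℝ) + 2) ^ 7 ≤ 10 ^ 6 * (3 / 2) ^ k := by
  rcases lt_or_ge k 17 with h | h
  · interval_cases k <;> norm_num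
  · induction k, h using Nat.le_induction with
    | base => norm_num
    | succ k hk ih =>
      have hk' : (17:ℝ) ≤ k := by exact_mod_cast hk
      have h0 : (k:ℝ) + 1 + 2 ≤ 20 / 19 * (k + 2) := by linarith
      have h1 : ((k:ℝ) + 1 + 2) ^ 7 ≤ 3 / 2 * ((k:ℝ) + 2) ^ 7 := by
        have h2 := pow_le_pow_left₀ (by linarith) h0 7
        rw [mul_pow] at h2
        have h3 : (20 / 19 : ℝ) ^ 7 ≤ 3 / 2 := by norm_num
        have h4 : 0 ≤ ((k:ℝ) + 2) ^ 7 := by positivity
        nlinarith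
      have h2 : (10 : ℝ) ^ 6 * (3 / 2) ^ (k + 1) = 3 / 2 * (10 ^ 6 * (3 / 2) ^ k) := by ring
      rw [h2]
      push_cast
      linarith

/-- the integral over the rotations, in the mean -/
theorem lintegral_phiP (hL : LV) (hF : Full2 n S) (μ : S → Measure (ℝ × ℝ))
    [∀ m, IsProbabilityMeasure (μ m)] {D W : ℝ} (hD1 : 1 ≤ D) (hW1 : 1 ≤ W) (hD : Dens μ D)
    (hW : Mom μ W) :
    ∫⁻ c, Phi c ∂Measure.pi μ ≤ ENNReal.ofReal (10 ^ 31 * (1 + Real.log (n * D * W)) ^ 7) := by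
  have hn := hF.one_le
  have hn1 : (1:ℝ) ≤ n := by exact_mod_cast hn
  have hn0 : (0:ℝ) < n := by linarith
  set P := Measure.pi μ with hP
  set l := Real.log (n * D * W) with hl
  have hl0 : 0 ≤ l := Real.log_nonneg
    (one_le_mul_of_one_le_of_one_le (one_le_mul_of_one_le_of_one_le hn1 hD1) hW1)
  have hb : ∀ k, 0 ≤ pk n D W k := fun k => by unfold pk; rw [← hl]; positivity
  set E : ℕ → Set (S → ℝ × ℝ) := fun k =>
    toMeasurable P {c | ¬ Gd n D W k c} with hE
  set T : (S → ℝ × ℝ) → ℝ≥0∞ := fun c => ∑' k : ℕ,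
      (E k).indicator (fun _ => ENNReal.ofReal (pk n D W (k + 1))) c with hT
  have hTm : Measurable T := Measurable.tsum fun k =>
    measurable_const.indicator (measurableSet_toMeasurable _ _)
  have h1 : ∀ c : S → ℝ × ℝ, Phi c ≤ ENNReal.ofReal (pk n D W 0) + T c := by
    intro c
    refine (phi_le_tsum hL hF hD1 hW1 c).trans (add_le_add le_rfl (ENNReal.tsum_le_tsum fun k => ?_))
    exact indicator_le_indicator_of_subset (subset_toMeasurable _ _) (fun _ => zero_le) c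
  refine (lintegral_mono h1).trans ?_
  rw [lintegral_add_right _ hTm, lintegral_const, measure_univ, mul_one]
  set A : ℝ := 3 * 10 ^ 23 * (1 + l) ^ 7 with hA
  have hA0 : 0 ≤ A := by positivity
  have hTi : ∫⁻ c, T c ∂P ≤ ENNReal.ofReal (12 * 10 ^ 6 * A) := by
    simp only [hT]
    rw [lintegral_tsum fun k =>
      (measurable_const.indicator (measurableSet_toMeasurable _ _)).aemeasurable]
    have h2 : ∀ k, ∫⁻ c, (E k).indicator
        (fun _ => ENNReal.ofReal (pk n D W (k + 1))) c ∂P ≤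
        ENNReal.ofReal (3 * 10 ^ 6 * A * (3 / 4) ^ k) := by
      intro k
      rw [lintegral_indicator (measurableSet_toMeasurable _ _), setLIntegral_const,
        measure_toMeasurable]
      refine (mul_le_mul_right (prob_Gd hF μ hD1 hW1 hD hW k) _).trans ?_
      have h3 := hb (k + 1)
      rw [← ENNReal.ofReal_mul (by positivity)]
      apply ENNReal.ofReal_le_ofReal
      have hk0 : (0:ℝ) ≤ k := Nat.cast_nonneg k
      have h5 : pk n D W (k + 1) ≤ A * ((k:ℝ) + 2) ^ 7 := by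
        unfold pk
        rw [← hl, hA, mul_assoc (3 * 10 ^ 23 : ℝ), ← mul_pow]
        refine mul_le_mul_of_nonneg_left (pow_le_pow_left₀ (by positivity) ?_ 7) (by norm_num)
        push_cast
        nlinarith
      have h6 : 3 / lk n k ≤ 3 * (1 / 2) ^ k := by
        unfold lk
        rw [div_le_iff₀ (by positivity)]
        have e : 3 * (1 / 2 : ℝ) ^ k * ((n:ℝ) ^ 3 * 2 ^ k) = 3 * n ^ 3 := by
          have : (1 / 2 : ℝ) ^ k * 2 ^ k = 1 := by rw [← mul_pow]; norm_num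
          linear_combination (3 * (n:ℝ) ^ 3) * this
        rw [e]
        have : (1:ℝ) ≤ (n:ℝ) ^ 3 := one_le_pow₀ hn1
        linarith
      calc pk n D W (k + 1) * (3 / lk n k)
          ≤ A * ((k:ℝ) + 2) ^ 7 * (3 * (1 / 2) ^ k) := by
            have := lk_ge hn k
            gcongr
        _ ≤ A * (10 ^ 6 * (3 / 2) ^ k) * (3 * (1 / 2) ^ k) := by
            gcongr
            exact pow7_le k
        _ = 3 * 10 ^ 6 * A * ((3 / 2) ^ k * (1 / 2) ^ k) := by ring
        _ = 3 * 10 ^ 6 * A * (3 / 4) ^ k := by rw [← mul_pow]; norm_num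
    have hs : HasSum (fun k : ℕ => 3 * 10 ^ 6 * A * (3 / 4 : ℝ) ^ k) (12 * 10 ^ 6 * A) := by
      have h3 := (hasSum_geometric_of_lt_one (r := (3 / 4 : ℝ)) (by norm_num)
        (by norm_num)).mul_left (3 * 10 ^ 6 * A)
      have e : 3 * 10 ^ 6 * A * (1 - 3 / 4 : ℝ)⁻¹ = 12 * 10 ^ 6 * A := by norm_num; ring
      rw [e] at h3
      exact h3
    refine (ENNReal.tsum_le_tsum h2).trans ?_
    rw [← ENNReal.ofReal_tsum_of_nonneg (fun k => by positivity) hs.summable, hs.tsum_eq]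
  calc ENNReal.ofReal (pk n D W 0) + ∫⁻ c, T c ∂P
      ≤ ENNReal.ofReal (pk n D W 0) + ENNReal.ofReal (12 * 10 ^ 6 * A) :=
        add_le_add le_rfl hTi
    _ = ENNReal.ofReal (pk n D W 0 + 12 * 10 ^ 6 * A) := by
        rw [← ENNReal.ofReal_add (hb 0) (by positivity)]
    _ ≤ ENNReal.ofReal (10 ^ 31 * (1 + l) ^ 7) := by
        apply ENNReal.ofReal_le_ofReal
        unfold pk
        rw [← hl, Nat.cast_zero, add_zero, hA]
        have : 0 ≤ (1 + l) ^ 7 := by positivity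
        linarith

/-- **The expected number of closed orbits.** -/
theorem expectedP (hL : LV) (hF : Full2 n S) (μ : S → Measure (ℝ × ℝ))
    [∀ m, IsProbabilityMeasure (μ m)] {D W : ℝ} (hD1 : 1 ≤ D) (hW1 : 1 ≤ W) (hD : Dens μ D)
    (hW : Mom μ W) (hR : RotInv μ) :
    ∫⁻ c, NP c ∂Measure.pi μ ≤ ENNReal.ofReal (4 * 10 ^ 30 * (1 + Real.log (n * D * W)) ^ 7) := by
  have hn1 : (1:ℝ) ≤ n := by exact_mod_cast hF.one_le
  have hl0 : 0 ≤ Real.log (n * D * W) := Real.log_nonneg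
    (one_le_mul_of_one_le_of_one_le (one_le_mul_of_one_le_of_one_le hn1 hD1) hW1)
  have h1 : ∀ α, ∫⁻ c, NP (rotc α c) ∂Measure.pi μ = ∫⁻ c, NP c ∂Measure.pi μ := fun α =>
    (measurePreserving_rotc' μ hR α).lintegral_comp measurable_NP
  have hmeas : Measurable (Function.uncurry fun (α : ℝ) (c : S → ℝ × ℝ) => NP (rotc α c)) :=
    measurable_NP.comp continuous_rotc.measurable
  have h2 : ∫⁻ c, Phi c ∂Measure.pi μ = ENNReal.ofReal π * ∫⁻ c, NP c ∂Measure.pi μ := by
    unfold Phi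
    rw [← lintegral_lintegral_swap (μ := volume.restrict (Ioo 0 π)) (ν := Measure.pi μ)
      (f := fun (α : ℝ) (c : S → ℝ × ℝ) => NP (rotc α c)) hmeas.aemeasurable]
    simp only [h1]
    rw [lintegral_const, Measure.restrict_apply_univ, Real.volume_Ioo, sub_zero, mul_comm]
  have h3 := lintegral_phiP hL hF μ hD1 hW1 hD hW
  rw [h2] at h3
  have h4 : ENNReal.ofReal 3 * ∫⁻ c, NP c ∂Measure.pi μ ≤
      ENNReal.ofReal 3 * ENNReal.ofReal (4 * 10 ^ 30 * (1 + Real.log (n * D * W)) ^ 7) := by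
    rw [← ENNReal.ofReal_mul (by norm_num)]
    refine le_trans ?_ (h3.trans (ENNReal.ofReal_le_ofReal ?_))
    · gcongr
      exact Real.pi_gt_three.le
    · have : 0 ≤ (1 + Real.log (n * D * W)) ^ 7 := by positivity
      linarith
  exact (ENNReal.mul_le_mul_iff_right (by simp) ENNReal.ofReal_ne_top).1 h4

/-- the integral over the rotations in the mean, for a Gaussian law with centre -/
lemma phi_gbP (hL : LV) (hF : Full2 n S) (b : S → ℝ × ℝ) {X : ℝ} (hX : 1 ≤ X)
    (hb : 1 + nb b ≤ 2 * X) :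
    ∫⁻ c, Phi c ∂gb b ≤ ENNReal.ofReal (12 * 10 ^ 34 * (1 + Real.log (n * X)) ^ 7) := by
  have hβ := nb_nonneg b
  have hn1 : (1:ℝ) ≤ n := by exact_mod_cast hF.one_le
  have hW : (1:ℝ) ≤ 4 * (1 + √(sn b)) ^ 2 := by
    have : 0 ≤ √(sn b) := Real.sqrt_nonneg _
    nlinarith
  have h1 : ∫⁻ c, Phi c ∂gb b ≤ ENNReal.ofReal (10 ^ 31 * (1 + Real.log (n * 1 *
      (4 * (1 + √(sn b)) ^ 2))) ^ 7) :=
    lintegral_phiP hL hF (fun m : S => g2.map fun v => b m + v) le_rfl hW (dens_gb b) (mom_gb b)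
  set L : ℝ := Real.log (n * X) with hLd
  have hnX : 1 ≤ (n:ℝ) * X := one_le_mul_of_one_le_of_one_le hn1 hX
  have hL0 : 0 ≤ L := Real.log_nonneg hnX
  have h2 : 1 + Real.log (n * 1 * (4 * (1 + √(sn b)) ^ 2)) ≤ 378 / 100 * (1 + L) := by
    have h3 : (n:ℝ) * 1 * (4 * (1 + √(sn b)) ^ 2) ≤ 16 * (n * X) ^ 2 := by
      have h4 : (1 + √(sn b)) ^ 2 ≤ (2 * X) ^ 2 := by
        have h5 : 1 + √(sn b) ≤ 2 * X := hb
        have h6 : 0 ≤ √(sn b) := Real.sqrt_nonneg _
        exact pow_le_pow_left₀ (by linarith) h5 2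
      have h5 : (n:ℝ) ≤ n ^ 2 := by nlinarith
      calc (n:ℝ) * 1 * (4 * (1 + √(sn b)) ^ 2) ≤ n * 1 * (4 * (2 * X) ^ 2) := by gcongr
        _ = 16 * (n * X ^ 2) := by ring
        _ ≤ 16 * (n ^ 2 * X ^ 2) := by gcongr
        _ = _ := by ring
    have h4 := Real.log_le_log (by positivity) h3
    have e4 : Real.log (16 * (n * X) ^ 2) = Real.log 16 + 2 * Real.log (n * X) := by
      rw [Real.log_mul (by norm_num) (by positivity), Real.log_pow]
      push_cast
      ring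
    rw [e4] at h4
    have h5 : Real.log 16 ≤ 278 / 100 := by
      have : (16:ℝ) = 2 ^ 4 := by norm_num
      rw [this, Real.log_pow]
      have := Real.log_two_lt_d9
      push_cast
      linarith
    linarith
  refine h1.trans (ENNReal.ofReal_le_ofReal ?_)
  have h0 : 0 ≤ 1 + Real.log (n * 1 * (4 * (1 + √(sn b)) ^ 2)) := by
    have : 0 ≤ Real.log (n * 1 * (4 * (1 + √(sn b)) ^ 2)) := by
      apply Real.log_nonneg
      exact one_le_mul_of_one_le_of_one_le (by rw [mul_one]; exact hn1) hW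
    linarith
  calc 10 ^ 31 * (1 + Real.log (n * 1 * (4 * (1 + √(sn b)) ^ 2))) ^ 7
      ≤ 10 ^ 31 * (378 / 100 * (1 + L)) ^ 7 :=
        mul_le_mul_of_nonneg_left (pow_le_pow_left₀ h0 h2 7) (by norm_num)
    _ = 10 ^ 31 * (378 / 100) ^ 7 * (1 + L) ^ 7 := by ring
    _ ≤ 12 * 10 ^ 34 * (1 + L) ^ 7 :=
        mul_le_mul_of_nonneg_right (by norm_num) (by positivity)

/-- the mean for any centre -/
theorem centredP (hL : LV) (hF : Full2 n S) (b : S → ℝ × ℝ) :
    ∫⁻ c, NP c ∂gb b ≤ ENNReal.ofReal (2 * 10 ^ 36 * (1 + nb b) *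
      (1 + Real.log (n * (1 + nb b))) ^ 7) := by
  have hβ := nb_nonneg b
  have hn1 : (1:ℝ) ≤ n := by exact_mod_cast hF.one_le
  set X : ℝ := 1 + nb b with hX
  have hX1 : 1 ≤ X := by linarith
  refine (to_rotations b).trans ?_
  have h2 := weighted b (P := Phi) measurable_Phi
  rw [← hX] at h2
  have hL0 : 0 ≤ Real.log (n * X) := Real.log_nonneg (one_le_mul_of_one_le_of_one_le hn1 hX1)
  set A : ℝ := 12 * 10 ^ 34 * (1 + Real.log (n * X)) ^ 7 with hA
  have hA0 : 0 ≤ A := by positivity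
  have h3 : ∀ i : Fin 4, ∫⁻ c, Phi c ∂gb (b + sh b i) ≤ ENNReal.ofReal A := by
    intro i
    have h4 := nb_sh b i
    exact phi_gbP hL hF (b + sh b i) hX1 (by rw [← hX] at h4; linarith)
  calc _ ≤ 4 * (ENNReal.ofReal X * ∑ _i : Fin 4, ENNReal.ofReal A) := by
        refine mul_le_mul_right (h2.trans (mul_le_mul_right (Finset.sum_le_sum fun i _ => h3 i) _)) _
    _ = ENNReal.ofReal 16 * (ENNReal.ofReal X * ENNReal.ofReal A) := by
        rw [Finset.sum_const, Finset.card_univ, Fintype.card_fin, nsmul_eq_mul]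
        have e16 : ENNReal.ofReal 16 = 4 * 4 := by norm_num
        rw [e16]
        push_cast
        ring
    _ = ENNReal.ofReal (16 * (X * A)) := by
        rw [← ENNReal.ofReal_mul (by linarith), ← ENNReal.ofReal_mul (by norm_num)]
    _ ≤ _ := by
        apply ENNReal.ofReal_le_ofReal
        rw [hA]
        have : 0 ≤ X * (1 + Real.log (n * X)) ^ 7 := by positivity
        nlinarith

end

end Pool.Agent.Helper63K9.PL
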