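import Pool.Agent.W960.HR.Det
import Pool.Agent.W960.HR.Exp

/-! The number of zeros of a polynomial field with good coefficients is polylogarithmic:
definitions and statements of the leaves. -/

open Set MeasureTheory
open scoped ENNReal

namespace Pool.Agent.Helper63K9.PL

noncomputable section

open Pool.Agent.H709R2 (field fld)
open Pool.Agent.W960.HR

/-- the nondegenerate zeros -/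
def NdZ (F : ℝ × ℝ → ℝ × ℝ) : Set (ℝ × ℝ) := {z | F z = 0 ∧ ∀ v, v ≠ 0 → fderiv ℝ F z v ≠ 0}

/-- Leaf BEZ: the nondegenerate zeros of a polynomial field -/
def S_BEZ : Prop := ∀ (d : ℕ) (P Q : MvPolynomial (Fin 2) ℝ), P.totalDegree ≤ d →
  Q.totalDegree ≤ d → (NdZ (field P Q)).encard ≤ ((d ^ 2 : ℕ) : ℕ∞)

/-- Leaf PERT: nondegenerate zeros survive small perturbations -/
def S_PERT : Prop := ∀ (f F : ℝ × ℝ → ℝ × ℝ), ContDiff ℝ 1 f → ContDiff ℝ 1 F →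
  ∀ (t L η : ℝ), 0 < t → t ≤ 1 → 1 ≤ L →
  (∀ z w, ‖z‖ ≤ 1 / 2 → ‖w‖ ≤ 1 / 2 → ‖fderiv ℝ f z - fderiv ℝ f w‖ ≤ L * ‖z - w‖) →
  η ≤ t ^ 2 / (100 * L) →
  (∀ z, ‖z‖ ≤ 1 / 2 → ‖F z - f z‖ ≤ η ∧ ‖fderiv ℝ F z - fderiv ℝ f z‖ ≤ η) →
  ∀ A : Set (ℝ × ℝ), (∀ p ∈ A, ‖p‖ ≤ 1 / 3 ∧ f p = 0 ∧ ∀ v, t * ‖v‖ ≤ ‖fderiv ℝ f p v‖) →
  A.encard ≤ (NdZ F).encard

/-- double power sums -/
def PS (n : ℕ) (A : ℕ → ℕ → ℝ × ℝ) (z : ℝ × ℝ) : ℝ × ℝ :=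
  ∑ k ∈ Finset.range (n + 1), ∑ l ∈ Finset.range (n + 1), (z.1 ^ k * z.2 ^ l) • A k l

/-- Leaf TAY1: the field in a cell as a double power sum with bounded coefficients -/
def S_TAY1 : Prop := ∀ (S : Finset (ℕ × ℕ)) (n : ℕ) (e : S → ℕ × ℕ), 1 ≤ n →
  (∀ m, (e m).1 + (e m).2 ≤ n) → ∀ N M : ℝ, 0 ≤ M → (S.card : ℝ) ≤ N → ∀ c : S → ℝ × ℝ,
  (∀ m, ‖c m‖ ≤ M) → ∀ a b ρ ρ' : ℝ, 0 < ρ → 0 < ρ' → |a| + ρ ≤ 1 + 1 / n →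
  |b| + ρ' ≤ 1 + 1 / n → ∃ A : ℕ → ℕ → ℝ × ℝ, (∀ k l, ‖A k l‖ ≤ 3 * (N * M)) ∧
    ∀ z : ℝ × ℝ, Gs one e c (a + ρ * z.1, b + ρ' * z.2) = PS n A z

/-- Leaf TAY2: truncation of a double power sum -/
def S_TAY2 : Prop := ∀ (n : ℕ) (A : ℕ → ℕ → ℝ × ℝ) (B : ℝ), 0 ≤ B → (∀ k l, ‖A k l‖ ≤ B) →
  (∀ z w, ‖z‖ ≤ 1 / 2 → ‖w‖ ≤ 1 / 2 →
    ‖fderiv ℝ (PS n A) z - fderiv ℝ (PS n A) w‖ ≤ 10 ^ 4 * B * ‖z - w‖) ∧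
  ∀ d : ℕ, ∃ P Q : MvPolynomial (Fin 2) ℝ, P.totalDegree ≤ d ∧ Q.totalDegree ≤ d ∧
    ∀ z, ‖z‖ ≤ 1 / 2 → ‖field P Q z - PS n A z‖ ≤ 10 ^ 4 * B * (3 / 4) ^ d ∧
      ‖fderiv ℝ (field P Q) z - fderiv ℝ (PS n A) z‖ ≤ 10 ^ 4 * B * (3 / 4) ^ d

/-- Leaf COV: the interval is covered by few intervals which are short compared with their distance
from the boundary -/
def S_COV : Prop := ∀ n : ℕ, 1 ≤ n → ∃ I : Finset (ℝ × ℝ), (I.card : ℝ) ≤ 10 * (1 + Real.log n) ∧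
  (∀ i ∈ I, 1 / (4 * n) ≤ i.2 ∧ i.2 ≤ 2 ∧ |i.1| + i.2 ≤ 1 + 1 / n) ∧
  ∀ x : ℝ, |x| ≤ 1 → ∃ i ∈ I, |x - i.1| ≤ i.2 / 3

/-- Leaf CHART: the zeros of the field from the zeros in three charts -/
def S_CHART : Prop := ∀ (S : Finset (ℕ × ℕ)) (n : ℕ), (∀ m ∈ S, m.1 + m.2 ≤ n) →
  ∀ (c : S → ℝ × ℝ) (K : ℕ∞),
  ({z : ℝ × ℝ | |z.1| ≤ 1 ∧ |z.2| ≤ 1 ∧ Gs one e0 c z = 0}.encard ≤ K) →
  ({z : ℝ × ℝ | |z.1| ≤ 1 ∧ |z.2| ≤ 1 ∧ Gs one (e1 n) c z = 0}.encard ≤ K) →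
  ({z : ℝ × ℝ | |z.1| ≤ 1 ∧ |z.2| ≤ 1 ∧ Gs one (e2 n) c z = 0}.encard ≤ K) →
  {z : ℝ × ℝ | fld c z = 0}.encard ≤ 3 * K

/-- Leaf DEG: a degree of truncation which is small enough -/
def S_DEG : Prop := ∀ (n : ℕ) (M t : ℝ), 1 ≤ n → 1 ≤ M → 0 < t → t ≤ 1 →
  ∃ d : ℕ, (d : ℝ) ≤ 200 * (1 + Real.log (n * M / t)) ∧
    10 ^ 4 * (3 * (4 * n ^ 2 * M)) * (3 / 4) ^ d ≤
      (t / (4 * n)) ^ 2 / (100 * (10 ^ 4 * (3 * (4 * n ^ 2 * M))))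

end

end Pool.Agent.Helper63K9.PL
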