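import Pool.Agent.Helper63K9.PL.St

/-! The number of zeros of a polynomial field with good coefficients is polylogarithmic. -/

open Set MeasureTheory
open scoped ENNReal

namespace Pool.Agent.Helper63K9.PL

noncomputable section

open Pool.Agent.H709R2 (field fld)
open Pool.Agent.W960.HR

variable {S : Finset (ℕ × ℕ)} {n : ℕ} {M t : ℝ}

/-- the zeros in a cell -/
theorem cell (bez : S_BEZ) (pert : S_PERT) (tay1 : S_TAY1) (tay2 : S_TAY2) (hn : 1 ≤ n)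
    {e : S → ℕ × ℕ} (he : ∀ m, (e m).1 + (e m).2 ≤ n) (hN : (S.card : ℝ) ≤ 4 * n ^ 2)
    (hM1 : 1 ≤ M) {c : S → ℝ × ℝ} (hM : ∀ m, ‖c m‖ ≤ M) (ht : 0 < t) (ht1 : t ≤ 1)
    (hnd : ND e c t) {d : ℕ} (hd : 10 ^ 4 * (3 * (4 * n ^ 2 * M)) * (3 / 4) ^ d ≤
      (t / (4 * n)) ^ 2 / (100 * (10 ^ 4 * (3 * (4 * n ^ 2 * M))))) {a b ρ ρ' : ℝ}
    (h1 : 1 / (4 * n) ≤ ρ) (h1' : 1 / (4 * n) ≤ ρ') (h3 : |a| + ρ ≤ 1 + 1 / n)
    (h3' : |b| + ρ' ≤ 1 + 1 / n) :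
    {z : ℝ × ℝ | |z.1| ≤ 1 ∧ |z.2| ≤ 1 ∧ Gs one e c z = 0 ∧ |z.1 - a| ≤ ρ / 3 ∧
      |z.2 - b| ≤ ρ' / 3}.encard ≤ ((d ^ 2 : ℕ) : ℕ∞) := by
  have hn1 : (1:ℝ) ≤ n := by exact_mod_cast hn
  have hn0 : (0:ℝ) < n := by linarith
  have hq : (0:ℝ) < 1 / (4 * n) := by positivity
  have hρ : 0 < ρ := hq.trans_le h1
  have hρ' : 0 < ρ' := hq.trans_le h1'
  obtain ⟨A, hA, hfA⟩ := tay1 S n e hn he (4 * n ^ 2) M (by linarith) hN c hM a b ρ ρ' hρ hρ' h3 h3'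
  obtain ⟨hLip, htr⟩ := tay2 n A (3 * (4 * n ^ 2 * M)) (by positivity) hA
  obtain ⟨P, Q, hP, hQ, hPQ⟩ := htr d
  set φ : ℝ × ℝ → ℝ × ℝ := fun z => (a + ρ * z.1, b + ρ' * z.2) with hφ
  have hf : PS n A = fun z => Gs one e c (φ z) := funext fun z => (hfA z).symm
  have hPSc : ContDiff ℝ 1 (PS n A) := by
    unfold PS
    refine ContDiff.sum fun k _ => ContDiff.sum fun l _ => ?_
    exact ((contDiff_fst.pow _).mul (contDiff_snd.pow _)).smul contDiff_const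
  have hder : ∀ z v : ℝ × ℝ, fderiv ℝ (PS n A) z v =
      (ρ * v.1) • Gx one e c (φ z) + (ρ' * v.2) • Gy one e c (φ z) := by
    intro z v
    have d1 : HasFDerivAt φ (ContinuousLinearMap.prod (ρ • ContinuousLinearMap.fst ℝ ℝ ℝ)
        (ρ' • ContinuousLinearMap.snd ℝ ℝ ℝ)) z := by
      refine HasFDerivAt.prodMk ?_ ?_
      · exact ((hasFDerivAt_fst (𝕜 := ℝ) (p := z)).const_mul ρ).const_add a
      · exact ((hasFDerivAt_snd (𝕜 := ℝ) (p := z)).const_mul ρ').const_add b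
    have d2 := (hasFDerivAt_Gs one e c (φ z)).comp z d1
    rw [hf]
    have d3 : fderiv ℝ (fun z => Gs one e c (φ z)) z = _ := HasFDerivAt.fderiv d2
    rw [d3]
    simp
  set t' : ℝ := t / (4 * n) with ht'
  have ht'0 : 0 < t' := by positivity
  have ht'1 : t' ≤ 1 := by
    rw [ht', div_le_one (by positivity)]
    linarith
  set B : ℝ := 3 * (4 * n ^ 2 * M) with hB
  have hB1 : 1 ≤ 10 ^ 4 * B := by
    have : 1 ≤ (n:ℝ) ^ 2 * M := one_le_mul_of_one_le_of_one_le (one_le_pow₀ hn1) hM1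
    rw [hB]
    nlinarith
  set A' : Set (ℝ × ℝ) := {p | ‖p‖ ≤ 1 / 3 ∧ |(φ p).1| ≤ 1 ∧ |(φ p).2| ≤ 1 ∧ PS n A p = 0} with hA'
  have h4 : A'.encard ≤ (NdZ (field P Q)).encard := by
    refine pert (PS n A) (field P Q) hPSc (H709R2.contDiff_field P Q) t' (10 ^ 4 * B)
      (10 ^ 4 * B * (3 / 4) ^ d) ht'0 ht'1 hB1 hLip hd hPQ A' ?_
    rintro p ⟨hp1, hp2, hp3, hp4⟩
    refine ⟨hp1, hp4, fun v => ?_⟩
    rw [hder]
    have h0 : Gs one e c (φ p) = 0 := by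
      have := hfA p
      rw [hp4] at this
      exact this
    have h5 := hnd.lower hp2 hp3 h0 (ρ * v.1, ρ' * v.2)
    refine le_trans ?_ h5
    have h6 : 1 / (4 * n) * ‖v‖ ≤ ‖(ρ * v.1, ρ' * v.2)‖ := by
      rw [Prod.norm_def v, Prod.norm_def (ρ * v.1, ρ' * v.2)]
      simp only [norm_mul, Real.norm_eq_abs, abs_of_pos hρ, abs_of_pos hρ']
      rcases le_total |v.1| |v.2| with hle | hle
      · rw [max_eq_right hle]
        exact (mul_le_mul_of_nonneg_right h1' (abs_nonneg _)).trans (le_max_right _ _)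
      · rw [max_eq_left hle]
        exact (mul_le_mul_of_nonneg_right h1 (abs_nonneg _)).trans (le_max_left _ _)
    calc t' * ‖v‖ = t * (1 / (4 * n) * ‖v‖) := by rw [ht']; ring
      _ ≤ t * ‖(ρ * v.1, ρ' * v.2)‖ := mul_le_mul_of_nonneg_left h6 ht.le
  have h5 : {z : ℝ × ℝ | |z.1| ≤ 1 ∧ |z.2| ≤ 1 ∧ Gs one e c z = 0 ∧ |z.1 - a| ≤ ρ / 3 ∧
      |z.2 - b| ≤ ρ' / 3} ⊆ φ '' A' := by
    rintro z ⟨hz1, hz2, hz3, hz4, hz5⟩
    have e1 : φ ((z.1 - a) / ρ, (z.2 - b) / ρ') = z := by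
      ext
      · simp only [hφ]; field_simp; ring
      · simp only [hφ]; field_simp; ring
    refine ⟨((z.1 - a) / ρ, (z.2 - b) / ρ'), ⟨?_, ?_, ?_, ?_⟩, e1⟩
    · rw [Prod.norm_def]
      simp only [norm_div, Real.norm_eq_abs, abs_of_pos hρ, abs_of_pos hρ']
      refine max_le ?_ ?_
      · rw [div_le_iff₀ hρ]; linarith
      · rw [div_le_iff₀ hρ']; linarith
    · rw [e1]; exact hz1
    · rw [e1]; exact hz2
    · rw [hf]
      show Gs one e c (φ _) = 0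
      rw [e1]; exact hz3
  exact (encard_le_encard h5).trans ((encard_image_le _ _).trans (h4.trans (bez d P Q hP hQ)))

/-- the zeros in a chart -/
theorem chartZ (bez : S_BEZ) (pert : S_PERT) (tay1 : S_TAY1) (tay2 : S_TAY2) (hn : 1 ≤ n)
    {e : S → ℕ × ℕ} (he : ∀ m, (e m).1 + (e m).2 ≤ n) (hN : (S.card : ℝ) ≤ 4 * n ^ 2)
    (hM1 : 1 ≤ M) {c : S → ℝ × ℝ} (hM : ∀ m, ‖c m‖ ≤ M) (ht : 0 < t) (ht1 : t ≤ 1)
    (hnd : ND e c t) {d : ℕ} (hd : 10 ^ 4 * (3 * (4 * n ^ 2 * M)) * (3 / 4) ^ d ≤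
      (t / (4 * n)) ^ 2 / (100 * (10 ^ 4 * (3 * (4 * n ^ 2 * M))))) {I : Finset (ℝ × ℝ)}
    (hI : ∀ i ∈ I, 1 / (4 * n) ≤ i.2 ∧ i.2 ≤ 2 ∧ |i.1| + i.2 ≤ 1 + 1 / n)
    (hcov : ∀ x : ℝ, |x| ≤ 1 → ∃ i ∈ I, |x - i.1| ≤ i.2 / 3) :
    {z : ℝ × ℝ | |z.1| ≤ 1 ∧ |z.2| ≤ 1 ∧ Gs one e c z = 0}.encard ≤
      ((I.card * I.card * d ^ 2 : ℕ) : ℕ∞) := by
  classical
  have hsub : {z : ℝ × ℝ | |z.1| ≤ 1 ∧ |z.2| ≤ 1 ∧ Gs one e c z = 0} ⊆
      ⋃ q ∈ I ×ˢ I, {z : ℝ × ℝ | |z.1| ≤ 1 ∧ |z.2| ≤ 1 ∧ Gs one e c z = 0 ∧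
        |z.1 - q.1.1| ≤ q.1.2 / 3 ∧ |z.2 - q.2.1| ≤ q.2.2 / 3} := by
    rintro z ⟨hz1, hz2, hz3⟩
    obtain ⟨i, hi, hxi⟩ := hcov z.1 hz1
    obtain ⟨j, hj, hxj⟩ := hcov z.2 hz2
    simp only [mem_iUnion]
    exact ⟨(i, j), Finset.mem_product.2 ⟨hi, hj⟩, hz1, hz2, hz3, hxi, hxj⟩
  refine (encard_le_encard hsub).trans ?_
  have hU : ∀ s : Finset ((ℝ × ℝ) × (ℝ × ℝ)), s ⊆ I ×ˢ I →
      (⋃ q ∈ s, {z : ℝ × ℝ | |z.1| ≤ 1 ∧ |z.2| ≤ 1 ∧ Gs one e c z = 0 ∧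
        |z.1 - q.1.1| ≤ q.1.2 / 3 ∧ |z.2 - q.2.1| ≤ q.2.2 / 3}).encard ≤
      ((s.card * d ^ 2 : ℕ) : ℕ∞) := by
    intro s
    induction s using Finset.induction_on with
    | empty => intro _; simp
    | insert q s hq ih =>
      intro hs
      rw [Finset.insert_subset_iff] at hs
      rw [Finset.set_biUnion_insert, Finset.card_insert_of_notMem hq]
      obtain ⟨hi, hj⟩ := Finset.mem_product.1 hs.1
      obtain ⟨a1, a2, a3⟩ := hI _ hi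
      obtain ⟨b1, b2, b3⟩ := hI _ hj
      have h1 := cell bez pert tay1 tay2 hn he hN hM1 hM ht ht1 hnd hd a1 b1 a3 b3
      refine (encard_union_le _ _).trans ((add_le_add h1 (ih hs.2)).trans (le_of_eq ?_))
      push_cast
      ring
  refine (hU _ subset_rfl).trans ?_
  rw [Finset.card_product]

/-- **A field with good coefficients has few zeros.** -/
theorem nz_le (bez : S_BEZ) (pert : S_PERT) (tay1 : S_TAY1) (tay2 : S_TAY2) (cov : S_COV)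
    (chart : S_CHART) (deg : S_DEG) (hF : Full n S) (hM1 : 1 ≤ M) (ht : 0 < t) (ht1 : t ≤ 1)
    {c : S → ℝ × ℝ} (hg : Good n c M t) :
    NZ c ≤ ENNReal.ofReal (12 * 10 ^ 6 * (1 + Real.log (n * M / t)) ^ 4) := by
  have hn := hF.one_le
  have hn1 : (1:ℝ) ≤ n := by exact_mod_cast hn
  have hn0 : (0:ℝ) < n := by linarith
  have hM0 : 0 < M := by linarith
  obtain ⟨I, hIc, hI, hcov⟩ := cov n hn
  obtain ⟨d, hd1, hd2⟩ := deg n M t hn hM1 ht ht1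
  have hS := hF.deg
  have he0 : ∀ m : S, (e0 m).1 + (e0 m).2 ≤ n := fun m => hS m.1 m.2
  have he1 : ∀ m : S, (e1 n m).1 + (e1 n m).2 ≤ n := fun m => by
    have := hS m.1 m.2
    simp only [e1]; omega
  have he2 : ∀ m : S, (e2 n m).1 + (e2 n m).2 ≤ n := fun m => by
    have := hS m.1 m.2
    simp only [e2]; omega
  have hN := card_le hF
  have c0 := chartZ bez pert tay1 tay2 hn he0 hN hM1 hg.bd ht ht1 hg.nd0 hd2 hI hcov
  have c1 := chartZ bez pert tay1 tay2 hn he1 hN hM1 hg.bd ht ht1 hg.nd1 hd2 hI hcov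
  have c2 := chartZ bez pert tay1 tay2 hn he2 hN hM1 hg.bd ht ht1 hg.nd2 hd2 hI hcov
  have h1 := chart S n hS c _ c0 c1 c2
  have h2 : NZ c ≤ ((3 * (I.card * I.card * d ^ 2) : ℕ) : ℝ≥0∞) := by
    unfold NZ
    have h3 := ENat.toENNReal_le.2 h1
    refine h3.trans (le_of_eq ?_)
    push_cast
    simp
  refine h2.trans ?_
  rw [← ENNReal.ofReal_natCast]
  apply ENNReal.ofReal_le_ofReal
  push_cast
  set l := Real.log (n * M / t) with hl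
  have hln : Real.log n ≤ l := by
    apply Real.log_le_log hn0
    rw [le_div_iff₀ ht]
    have : (n:ℝ) * t ≤ n * 1 := mul_le_mul_of_nonneg_left ht1 hn0.le
    have h4 : (n:ℝ) * 1 ≤ n * M := mul_le_mul_of_nonneg_left hM1 hn0.le
    linarith
  have hln0 : 0 ≤ Real.log n := Real.log_nonneg hn1
  have hx : (I.card : ℝ) ≤ 10 * (1 + l) := hIc.trans (by linarith)
  have hx0 : (0:ℝ) ≤ I.card := Nat.cast_nonneg _
  have hd0 : (0:ℝ) ≤ d := Nat.cast_nonneg _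
  have hL : 1 ≤ 1 + l := by linarith
  calc 3 * ((I.card:ℝ) * I.card * (d:ℝ) ^ 2)
      ≤ 3 * ((10 * (1 + l)) * (10 * (1 + l)) * (200 * (1 + l)) ^ 2) := by gcongr
    _ = 12 * 10 ^ 6 * (1 + l) ^ 4 := by ring

end

end Pool.Agent.Helper63K9.PL
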